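import Pool.Agent.Y745.HZ.StmB

set_option autoImplicit false

/-! Identification of the constant, and the second primitive as an integral. -/

namespace Pool.Agent.Y745.HZ

open Complex MeasureTheory Filter Topology Set
open Pool.Agent.Helper625

noncomputable section

theorem t_GZ : P_GZ := by
  intro T hT
  rw [N6.Gz_eq hT, intervalIntegral.integral_of_le hT]
  have h3 : ∫ t in Ioi (0:ℝ), M8.Zr t * max (T - t) 0 = ∫ t in Ioc 0 T, M8.Zr t * max (T - t) 0 := by
    apply setIntegral_eq_of_subset_of_forall_sdiff_eq_zero measurableSet_Ioi Ioc_subset_Ioi_self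
    intro t ht
    have h4 : T < t := by
      by_contra hc
      exact ht.2 ⟨ht.1, not_lt.mp hc⟩
    rw [max_eq_right (by linarith), mul_zero]
  rw [h3]
  apply setIntegral_congr_fun measurableSet_Ioc
  intro t ht
  simp only
  rw [max_eq_left (by linarith [ht.2])]
  ring

lemma rpow_int {η a : ℝ} (hη : 0 < η) (ha : 0 < a) :
    IntegrableOn (fun T : ℝ => T ^ (a - 1) * Real.exp (-η * T)) (Ioi 0) ∧
    ∫ T in Ioi (0:ℝ), T ^ (a - 1) * Real.exp (-η * T) = (1 / η) ^ a * Real.Gamma a := by
  constructor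
  · have h := integrableOn_rpow_mul_exp_neg_mul_rpow (p := 1) (s := a - 1) (b := η) (by linarith) (by norm_num) hη
    refine h.congr_fun ?_ measurableSet_Ioi
    intro x _
    simp only [Real.rpow_one]
  · rw [← Real.integral_rpow_mul_exp_neg_mul_Ioi ha hη]
    apply setIntegral_congr_fun measurableSet_Ioi
    intro t _
    simp only
    rw [neg_mul]

theorem t_ABEL : P_ABEL := by
  intro c K hK
  have hK0 : 0 ≤ K := by
    have := hK 1 le_rfl
    rw [Real.one_rpow, mul_one, mul_one] at this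
    exact (abs_nonneg _).trans this
  set M := 8 + |c| with hM
  have hM0 : 0 ≤ M := by positivity
  have hall : ∀ T : ℝ, 0 < T → |M8.Gz T - c * T| ≤ K * T ^ (3 / 4 : ℝ) + M := by
    intro T hT
    rcases le_total 1 T with h | h
    · linarith [hK T h]
    · have h1 := M8.Gz_bound hT.le
      have h2 : |M8.Gz T - c * T| ≤ |M8.Gz T| + |c * T| := abs_sub _ _
      rw [abs_mul, abs_of_pos hT] at h2
      have h3 : 4 * (1 + T) * T * T ≤ 8 := by
        have : T * T ≤ 1 := by nlinarith
        nlinarith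
      have h4 : |c| * T ≤ |c| := by nlinarith [abs_nonneg c]
      have h5 : 0 ≤ K * T ^ (3 / 4 : ℝ) := by positivity
      linarith
  have hbound : ∀ η : ℝ, 0 < η → |M8.A η - c| ≤ K * Real.Gamma (7/4) * η ^ (1/4 : ℝ) + M * η := by
    intro η hη
    have i1 := M8.Gz_exp_integ hη
    have i2 : IntegrableOn (fun T : ℝ => c * T * Real.exp (-η * T)) (Ioi 0) := by
      have : IntegrableOn (fun T : ℝ => c * (T ^ 1 * Real.exp (-η * T))) (Ioi 0) := (M8.pow_exp_integ hη 1).const_mul c
      refine this.congr_fun ?_ measurableSet_Ioi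
      intro t _
      simp only [pow_one]; ring
    have e1 : M8.A η - c = η ^ 2 * ∫ T in Ioi (0:ℝ), (M8.Gz T - c * T) * Real.exp (-η * T) := by
      have e2 : ∫ T in Ioi (0:ℝ), (M8.Gz T - c * T) * Real.exp (-η * T) =
          (∫ T in Ioi (0:ℝ), M8.Gz T * Real.exp (-η * T)) - ∫ T in Ioi (0:ℝ), c * T * Real.exp (-η * T) := by
        rw [← integral_sub i1 i2]
        congr 1; ext t; ring
      have e3 : ∫ T in Ioi (0:ℝ), c * T * Real.exp (-η * T) = c * (1 / η ^ 2) := by
        rw [← M8.int_T hη, ← integral_const_mul]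
        congr 1; ext t; ring
      rw [e2, e3, M8.A_eq_G hη]
      field_simp
    obtain ⟨j1, j2⟩ := rpow_int (a := 7/4) hη (by norm_num)
    obtain ⟨l1, l2⟩ := rpow_int (a := 1) hη (by norm_num)
    have hb : ‖∫ T in Ioi (0:ℝ), (M8.Gz T - c * T) * Real.exp (-η * T)‖ ≤
        ∫ T in Ioi (0:ℝ), (K * (T ^ ((7/4 : ℝ) - 1) * Real.exp (-η * T)) + M * (T ^ ((1 : ℝ) - 1) * Real.exp (-η * T))) := by
      refine norm_integral_le_of_norm_le ((j1.const_mul K).add (l1.const_mul M)) ?_
      refine (ae_restrict_iff' measurableSet_Ioi).mpr (Filter.Eventually.of_forall fun T hT => ?_)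
      have hT0 : (0:ℝ) < T := hT
      rw [norm_mul, Real.norm_eq_abs, Real.norm_of_nonneg (Real.exp_pos _).le]
      have := hall T hT0
      calc |M8.Gz T - c * T| * Real.exp (-η * T) ≤ (K * T ^ (3 / 4 : ℝ) + M) * Real.exp (-η * T) :=
            mul_le_mul_of_nonneg_right this (Real.exp_pos _).le
        _ = _ := by
            rw [show (7/4 : ℝ) - 1 = 3/4 by norm_num, sub_self, Real.rpow_zero]; ring
    rw [integral_add (j1.const_mul K) (l1.const_mul M), integral_const_mul, integral_const_mul, j2, l2,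
      Real.Gamma_one, Real.rpow_one, Real.norm_eq_abs] at hb
    rw [e1, abs_mul, abs_of_pos (by positivity : 0 < η ^ 2)]
    calc η ^ 2 * |∫ T in Ioi (0:ℝ), (M8.Gz T - c * T) * Real.exp (-η * T)|
        ≤ η ^ 2 * (K * ((1 / η) ^ (7/4 : ℝ) * Real.Gamma (7/4)) + M * (1 / η * 1)) :=
          mul_le_mul_of_nonneg_left hb (by positivity)
      _ = K * Real.Gamma (7/4) * (η ^ 2 * (1 / η) ^ (7/4 : ℝ)) + M * η := by
          field_simp
      _ = _ := by
          congr 2
          rw [one_div, Real.inv_rpow hη.le, ← Real.rpow_neg hη.le, ← Real.rpow_natCast η 2, ← Real.rpow_add hη]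
          norm_num
  have hz : Tendsto (fun η : ℝ => K * Real.Gamma (7/4) * η ^ (1/4 : ℝ) + M * η) (𝓝[>] 0) (𝓝 0) := by
    have h1 : Tendsto (fun η : ℝ => K * Real.Gamma (7/4) * η ^ (1/4 : ℝ) + M * η) (𝓝 0)
        (𝓝 (K * Real.Gamma (7/4) * (0:ℝ) ^ (1/4 : ℝ) + M * 0)) := by
      apply Tendsto.add
      · apply Tendsto.const_mul
        exact (Real.continuousAt_rpow_const 0 (1/4) (Or.inr (by norm_num))).tendsto
      · exact tendsto_id.const_mul M
    rw [Real.zero_rpow (by norm_num)] at h1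
    simp only [mul_zero, add_zero] at h1
    exact h1.mono_left nhdsWithin_le_nhds
  have hlim : Tendsto (fun η => M8.A η - c) (𝓝[>] 0) (𝓝 0) := by
    refine squeeze_zero_norm' ?_ hz
    filter_upwards [self_mem_nhdsWithin] with η hη
    exact hbound η hη
  have h2 := M8.A_tendsto.sub_const c
  have := tendsto_nhds_unique hlim h2
  linarith

end

end Pool.Agent.Y745.HZ
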