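import Pool.Agent.Y745.HZ.StmB

set_option autoImplicit false

/-! Replacing the Gamma factor of Hardy's function by a power. -/

namespace Pool.Agent.Y745.HZ

open Complex MeasureTheory Filter Topology Set
open Pool.Agent.Helper625

noncomputable section

/-- the difference -/
def qq (t : ℝ) : ℝ := M8.Zr t * (1 - M5.m t)

lemma m_cont : Continuous M5.m := by
  unfold M5.m
  apply Continuous.div_const
  apply Continuous.mul
  · apply Continuous.mul M7.g_cont
    exact Real.continuous_rpow_const (by norm_num)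
  · fun_prop

lemma qq_cont : Continuous qq := M8.Zr_cont.mul (continuous_const.sub m_cont)

/-- the constant -/
def kap : ℝ := Real.pi ^ (1/4 : ℝ) / (Real.sqrt (2 * Real.pi) * 2 ^ (1/4 : ℝ))

lemma Zr_eq (t : ℝ) : M8.Zr t = kap * (t ^ (1/4 : ℝ) * (M1.Lr t * Real.exp (Real.pi / 4 * t))) + qq t := by
  unfold qq M8.Zr M5.m kap
  have h := (Gam.g_pos t).ne'
  have h2 : Real.sqrt (2 * Real.pi) ≠ 0 := by positivity
  have h3 : (2:ℝ) ^ (1/4 : ℝ) ≠ 0 := by positivity
  field_simp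
  ring

lemma qq_bound {t : ℝ} (ht : 1 ≤ t) : |qq t| ≤ Real.sqrt (ZF.W t) / t := by
  unfold qq
  rw [abs_mul, M8.abs_Zr]
  have h1 := M5.abs_m_sub ht
  have ht0 : 0 < t := by linarith
  have h2 : ‖riemannZeta (ZF.cl t)‖ = Real.sqrt (ZF.W t) * ‖ZF.cl t‖ := by
    have h3 := ZF.norm_cl_pos t
    unfold ZF.W
    rw [Real.sqrt_sq (norm_nonneg _), norm_div]
    field_simp
  have h4 : ‖ZF.cl t‖ ≤ 2 * t := by
    have := Th.norm_cl_le t
    rw [abs_of_pos ht0] at this
    linarith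
  rw [h2]
  have h5 : 0 ≤ Real.sqrt (ZF.W t) := Real.sqrt_nonneg _
  calc Real.sqrt (ZF.W t) * ‖ZF.cl t‖ * |1 - M5.m t| ≤ Real.sqrt (ZF.W t) * (2 * t) * (1 / (4 * t ^ 2)) := by gcongr
    _ = Real.sqrt (ZF.W t) / t * (1 / 2) := by field_simp; ring
    _ ≤ _ := by
        have : 0 ≤ Real.sqrt (ZF.W t) / t := by positivity
        linarith

lemma W_nonneg (t : ℝ) : 0 ≤ ZF.W t := by unfold ZF.W; positivity

/-- weighted arithmetic-geometric mean bound -/
lemma qq_am {t l : ℝ} (ht : 1 ≤ t) (hl : 0 < l) : |qq t| ≤ l * ZF.W t + l⁻¹ * t ^ (-2 : ℝ) := by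
  refine (qq_bound ht).trans ?_
  have ht0 : 0 < t := by linarith
  set s := Real.sqrt (ZF.W t) with hs
  have h1 : ZF.W t = s ^ 2 := (Real.sq_sqrt (W_nonneg t)).symm
  rw [h1]
  have h2 : t ^ (-2 : ℝ) = (1 / t) ^ 2 := by
    rw [Real.rpow_neg ht0.le, Real.rpow_two]; field_simp
  rw [h2]
  have h3 : 0 ≤ (l * s - 1 / t) ^ 2 := sq_nonneg _
  have h4 : l * s ^ 2 + l⁻¹ * (1 / t) ^ 2 - 2 * (s / t) = (l * s - 1 / t) ^ 2 / l := by
    field_simp
    ring
  have h5 : 0 ≤ (l * s - 1 / t) ^ 2 / l := by positivity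
  have h6 : 0 ≤ s / t := by positivity
  linarith

lemma qq_am2 {t l : ℝ} (ht : 1 ≤ t) (hl : 0 < l) : t * |qq t| ≤ l * ZF.W t + l⁻¹ := by
  have ht0 : 0 < t := by linarith
  have h0 := qq_bound ht
  set s := Real.sqrt (ZF.W t) with hs
  have h1 : ZF.W t = s ^ 2 := (Real.sq_sqrt (W_nonneg t)).symm
  have h2 : t * |qq t| ≤ s := by
    calc t * |qq t| ≤ t * (s / t) := mul_le_mul_of_nonneg_left h0 ht0.le
      _ = s := by field_simp
  rw [h1]
  have h3 : l * s ^ 2 + l⁻¹ - 2 * s = (l * s - 1) ^ 2 / l := by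
    field_simp; ring
  have h4 : 0 ≤ (l * s - 1) ^ 2 / l := by positivity
  have h5 : 0 ≤ s := Real.sqrt_nonneg _
  linarith

theorem t_GAM : P_GAM := by
  have hWi := ZF.W_integrable
  set W0 := ∫ t, ZF.W t with hW0
  have hW00 : 0 ≤ W0 := integral_nonneg W_nonneg
  have itail : ∀ T : ℝ, 1 ≤ T → IntegrableOn qq (Ioi T) ∧ |∫ t in Ioi T, qq t| ≤ (W0 + 1) * (√T)⁻¹ := by
    intro T hT
    have hT0 : 0 < T := by linarith
    have hs0 : 0 < √T := Real.sqrt_pos.2 hT0
    have i1 : IntegrableOn (fun t : ℝ => (√T)⁻¹ * ZF.W t + ((√T)⁻¹)⁻¹ * t ^ (-2 : ℝ)) (Ioi T) :=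
      (hWi.integrableOn.const_mul _).add ((integrableOn_Ioi_rpow_of_lt (by norm_num) hT0).const_mul _)
    have hb : ∀ t ∈ Ioi T, ‖qq t‖ ≤ (√T)⁻¹ * ZF.W t + ((√T)⁻¹)⁻¹ * t ^ (-2 : ℝ) := by
      intro t ht
      exact qq_am (by linarith [mem_Ioi.1 ht]) (by positivity)
    constructor
    · exact Integrable.mono' i1 qq_cont.aestronglyMeasurable.restrict
        ((ae_restrict_iff' measurableSet_Ioi).2 (Filter.Eventually.of_forall hb))
    · rw [← Real.norm_eq_abs]
      refine (norm_integral_le_of_norm_le i1 ((ae_restrict_iff' measurableSet_Ioi).2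
        (Filter.Eventually.of_forall hb))).trans ?_
      rw [integral_add (hWi.integrableOn.const_mul _) ((integrableOn_Ioi_rpow_of_lt (by norm_num) hT0).const_mul _),
        integral_const_mul, integral_const_mul, integral_Ioi_rpow_of_lt (by norm_num) hT0]
      have h1 : ∫ t in Ioi T, ZF.W t ≤ W0 := setIntegral_le_integral hWi (Filter.Eventually.of_forall W_nonneg)
      have h2 : -T ^ ((-2:ℝ) + 1) / ((-2:ℝ) + 1) = T⁻¹ := by
        rw [show (-2:ℝ) + 1 = -1 by norm_num, Real.rpow_neg_one]; ring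
      rw [h2, inv_inv]
      have h3 : √T * T⁻¹ = (√T)⁻¹ := by
        have : T = √T * √T := (Real.mul_self_sqrt hT0.le).symm
        field_simp
        linarith [Real.sq_sqrt hT0.le]
      rw [h3]
      have h4 : (√T)⁻¹ * ∫ t in Ioi T, ZF.W t ≤ (√T)⁻¹ * W0 := mul_le_mul_of_nonneg_left h1 (by positivity)
      linarith
  have ihead : ∀ T : ℝ, 1 ≤ T → |∫ t in (1:ℝ)..T, t * qq t| ≤ (W0 + 1) * √T := by
    intro T hT
    have hT0 : 0 < T := by linarith
    have hs0 : 0 < √T := Real.sqrt_pos.2 hT0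
    have i1 : IntervalIntegrable (fun t : ℝ => √T * ZF.W t + (√T)⁻¹) volume 1 T :=
      (hWi.intervalIntegrable.const_mul _).add intervalIntegrable_const
    have h1 : ‖∫ t in (1:ℝ)..T, t * qq t‖ ≤ ∫ t in (1:ℝ)..T, (√T * ZF.W t + (√T)⁻¹) := by
      apply intervalIntegral.norm_integral_le_of_norm_le hT _ i1
      refine Filter.Eventually.of_forall fun t ht => ?_
      have ht0 : 0 < t := by linarith [ht.1]
      rw [norm_mul, Real.norm_of_nonneg ht0.le, Real.norm_eq_abs]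
      exact qq_am2 ht.1.le hs0
    rw [intervalIntegral.integral_add (hWi.intervalIntegrable.const_mul _) intervalIntegrable_const,
      intervalIntegral.integral_const_mul, intervalIntegral.integral_const, Real.norm_eq_abs, smul_eq_mul] at h1
    have h2 : ∫ t in (1:ℝ)..T, ZF.W t ≤ W0 := by
      rw [intervalIntegral.integral_of_le hT]
      exact setIntegral_le_integral hWi (Filter.Eventually.of_forall W_nonneg)
    have h3 : (T - 1) * (√T)⁻¹ ≤ √T := by
      rw [← div_eq_mul_inv, div_le_iff₀ hs0]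
      linarith [Real.mul_self_sqrt hT0.le]
    have h4 : √T * ∫ t in (1:ℝ)..T, ZF.W t ≤ √T * W0 := mul_le_mul_of_nonneg_left h2 hs0.le
    linarith
  set c := (∫ t in (0:ℝ)..1, qq t) + ∫ t in Ioi (1:ℝ), qq t with hc
  refine ⟨kap, c, (W0 + 1) + (W0 + 1) + |∫ t in (0:ℝ)..1, t * qq t|, fun T hT => ?_⟩
  have hT0 : 0 < T := by linarith
  have hs0 : 0 < √T := Real.sqrt_pos.2 hT0
  have hs1 : 1 ≤ √T := by
    rw [show (1:ℝ) = √1 by simp]
    exact Real.sqrt_le_sqrt hT
  have cT : Continuous fun t : ℝ => T - t := by fun_prop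
  have cq : Continuous fun t : ℝ => t ^ (1/4 : ℝ) := Real.continuous_rpow_const (by norm_num)
  have cL : Continuous fun t : ℝ => t ^ (1/4 : ℝ) * (M1.Lr t * Real.exp (Real.pi / 4 * t)) :=
    cq.mul (M1.Lr_cont.mul (by fun_prop))
  have e1 : (∫ t in (0:ℝ)..T, (T - t) * M8.Zr t) -
      kap * (∫ t in (0:ℝ)..T, (T - t) * (t ^ (1 / 4 : ℝ) * (M1.Lr t * Real.exp (Real.pi / 4 * t)))) =
      ∫ t in (0:ℝ)..T, (T - t) * qq t := by
    rw [← intervalIntegral.integral_const_mul, ← intervalIntegral.integral_sub]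
    · apply intervalIntegral.integral_congr
      intro t _
      simp only
      rw [Zr_eq t]; ring
    · exact (cT.mul M8.Zr_cont).intervalIntegrable _ _
    · exact (continuous_const.mul (cT.mul cL)).intervalIntegrable _ _
  rw [e1]
  have e2 : (∫ t in (0:ℝ)..T, (T - t) * qq t) = T * (∫ t in (0:ℝ)..T, qq t) - ∫ t in (0:ℝ)..T, t * qq t := by
    rw [← intervalIntegral.integral_const_mul, ← intervalIntegral.integral_sub]
    · congr 1; ext t; ring
    · exact (continuous_const.mul qq_cont).intervalIntegrable _ _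
    · exact (continuous_id.mul qq_cont).intervalIntegrable _ _
  have e3 : (∫ t in (0:ℝ)..T, qq t) = c - ∫ t in Ioi T, qq t := by
    rw [hc, ← intervalIntegral.integral_add_adjacent_intervals (qq_cont.intervalIntegrable 0 1) (qq_cont.intervalIntegrable 1 T),
      intervalIntegral.integral_of_le hT]
    have hu : Ioi (1:ℝ) = Ioc 1 T ∪ Ioi T := (Ioc_union_Ioi_eq_Ioi hT).symm
    rw [hu, setIntegral_union (Ioc_disjoint_Ioi le_rfl) measurableSet_Ioi
      ((itail 1 le_rfl).1.mono_set Ioc_subset_Ioi_self) (itail T hT).1]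
    ring
  have e4 : (∫ t in (0:ℝ)..T, t * qq t) = (∫ t in (0:ℝ)..1, t * qq t) + ∫ t in (1:ℝ)..T, t * qq t := by
    rw [intervalIntegral.integral_add_adjacent_intervals]
    · exact (continuous_id.mul qq_cont).intervalIntegrable _ _
    · exact (continuous_id.mul qq_cont).intervalIntegrable _ _
  rw [e2, e3, e4]
  have b1 : |T * ∫ t in Ioi T, qq t| ≤ (W0 + 1) * √T := by
    rw [abs_mul, abs_of_pos hT0]
    calc T * |∫ t in Ioi T, qq t| ≤ T * ((W0 + 1) * (√T)⁻¹) := mul_le_mul_of_nonneg_left (itail T hT).2 hT0.le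
      _ = (W0 + 1) * √T := by
          have : T * (√T)⁻¹ = √T := by
            rw [← div_eq_mul_inv, div_eq_iff hs0.ne']
            exact (Real.mul_self_sqrt hT0.le).symm
          linear_combination (W0 + 1) * this
  have b2 := ihead T hT
  have b3 : |∫ t in (0:ℝ)..1, t * qq t| ≤ |∫ t in (0:ℝ)..1, t * qq t| * √T := le_mul_of_one_le_right (abs_nonneg _) hs1
  have q1 := abs_le.1 b1
  have q2 := abs_le.1 b2
  have q3 := abs_le.1 b3
  rw [abs_le]
  constructor <;> nlinarith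

end

end Pool.Agent.Y745.HZ
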