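import Pool.Agent.Y745.HZ.Stm

set_option autoImplicit false

/-! Modulus and differentiability of the integrand. -/

namespace Pool.Agent.Y745.HZ

open Complex MeasureTheory Filter Topology Set

noncomputable section

lemma sin_xy (x y : ℝ) : Complex.sin ((x : ℂ) + (y : ℂ) * I) =
    ((Real.sin x * Real.cosh y : ℝ) : ℂ) + ((Real.cos x * Real.sinh y : ℝ) : ℂ) * I := by
  rw [Complex.sin_add_mul_I]; push_cast; ring

lemma cos_xy (x y : ℝ) : Complex.cos ((x : ℂ) + (y : ℂ) * I) =
    ((Real.cos x * Real.cosh y : ℝ) : ℂ) + ((-(Real.sin x * Real.sinh y) : ℝ) : ℂ) * I := by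
  rw [Complex.cos_add_mul_I]; push_cast; ring

lemma normSq_sin (x y : ℝ) : Complex.normSq (Complex.sin ((x : ℂ) + (y : ℂ) * I)) =
    Real.sin x ^ 2 + Real.sinh y ^ 2 := by
  rw [sin_xy, Complex.normSq_add_mul_I]
  have h1 := Real.cosh_sq y
  have h2 := Real.sin_sq_add_cos_sq x
  rw [mul_pow, mul_pow, h1]
  have : Real.cos x ^ 2 = 1 - Real.sin x ^ 2 := by linarith
  rw [this]; ring

lemma re_cot (x y : ℝ) :
    (Complex.cos ((x : ℂ) + (y : ℂ) * I) / Complex.sin ((x : ℂ) + (y : ℂ) * I)).re = rc x y := by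
  rw [Complex.div_re, normSq_sin, sin_xy, cos_xy]
  simp only [add_re, ofReal_re, mul_re, I_re, mul_zero, ofReal_im, I_im, mul_one, sub_zero, add_zero, add_im,
    mul_im, zero_add]
  unfold rc
  have h1 := Real.cosh_sq y
  rw [← add_div]
  congr 1
  have : Real.cosh y * Real.cosh y = Real.sinh y ^ 2 + 1 := by rw [← h1]; ring
  linear_combination (Real.sin x * Real.cos x) * this

theorem t_NRM : P_NRM := by
  intro T k x y hx hy hxy
  have hpi := Real.pi_gt_three
  have hx' := abs_le.1 hx
  have hcos : 0 < Real.cos x := Real.cos_pos_of_le_one hx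
  set P : ℂ := (x : ℂ) + (y : ℂ) * I with hP
  have hPre : P.re = x := by simp [hP]
  have hPim : P.im = y := by simp [hP]
  have hP0 : P ≠ 0 := by
    intro h
    have h1 : P.re = 0 := by rw [h]; simp
    have h2 : P.im = 0 := by rw [h]; simp
    rw [hPre] at h1; rw [hPim] at h2
    rcases hxy with h3 | h3
    · linarith
    · exact h3 h2
  have hslit : 2 * Complex.sin P ∈ Complex.slitPlane := by
    rw [hP, sin_xy, Complex.mem_slitPlane_iff]
    rcases hxy with h | h
    · left
      simp only [mul_re, re_ofNat, add_re, ofReal_re, I_re, mul_zero, ofReal_im, I_im, mul_one, sub_zero,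
        add_zero, im_ofNat, zero_mul]
      have h1 : 0 < Real.sin x := Real.sin_pos_of_pos_of_lt_pi h (by linarith [hx'.2])
      have h2 := Real.cosh_pos y
      positivity
    · right
      simp only [mul_im, re_ofNat, add_im, ofReal_im, ofReal_re, I_im, mul_one, I_re, mul_zero, add_zero,
        zero_add, im_ofNat, zero_mul]
      have h2 : Real.sinh y ≠ 0 := fun h2 => h (Real.sinh_eq_zero.1 h2)
      have h3 := hcos.ne'
      positivity
  have hs0 : Complex.sin P ≠ 0 := by
    intro h
    rw [h, mul_zero] at hslit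
    simp at hslit
  constructor
  · unfold ff
    apply DifferentiableAt.mul
    · apply DifferentiableAt.mul (by fun_prop)
      exact DifferentiableAt.inv (by fun_prop) (pow_ne_zero 2 hP0)
    · apply DifferentiableAt.mul
      · apply DifferentiableAt.cpow_const (by
          have := Complex.differentiable_sin
          fun_prop)
        exact hslit
      · apply DifferentiableAt.cexp
        apply DifferentiableAt.const_mul
        exact DifferentiableAt.div (Complex.differentiable_cos P) (Complex.differentiable_sin P) hs0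
  · unfold ff hh
    have hr2 : 0 < x ^ 2 + y ^ 2 := by
      rcases hxy with h | h
      · positivity
      · positivity
    have hns : Complex.normSq P = x ^ 2 + y ^ 2 := by rw [hP, Complex.normSq_add_mul_I]
    have e1 : ‖cexp (P * T)‖ = Real.exp (x * T) := by
      rw [Complex.norm_exp]; congr 1
      rw [mul_re, ofReal_re, ofReal_im, mul_zero, sub_zero, hPre]
    have e2 : ‖(P ^ 2)⁻¹‖ = (x ^ 2 + y ^ 2) ^ (-1 : ℝ) := by
      rw [norm_inv, norm_pow, ← Complex.normSq_eq_norm_sq, hns, Real.rpow_neg_one]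
    have e3 : ‖(2 * Complex.sin P) ^ (-(1 / 2) : ℂ)‖ ≤ (x ^ 2 + y ^ 2) ^ (-(1/4) : ℝ) := by
      have h20 : 2 * Complex.sin P ≠ 0 := mul_ne_zero two_ne_zero hs0
      rw [Complex.norm_cpow_of_ne_zero h20]
      have i1 : (-(1 / 2) : ℂ).re = -(1/2) := by norm_num
      have i2 : (-(1 / 2) : ℂ).im = 0 := by norm_num
      rw [i1, i2, mul_zero, Real.exp_zero, div_one]
      have h5 : (x ^ 2 + y ^ 2) ^ (1/2 : ℝ) ≤ ‖2 * Complex.sin P‖ := by
        have h6 : ‖2 * Complex.sin P‖ ^ 2 = 4 * (Real.sin x ^ 2 + Real.sinh y ^ 2) := by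
          rw [norm_mul, mul_pow, ← Complex.normSq_eq_norm_sq (Complex.sin P), hP, normSq_sin]
          norm_num
        have h7 : x ^ 2 ≤ 4 * Real.sin x ^ 2 := by
          have h8 : 2 / Real.pi * |x| ≤ Real.sin |x| := Real.mul_le_sin (abs_nonneg x) (by linarith)
          have h9 : |x| ≤ 2 * Real.sin |x| := by
            have h10 : 1 / 2 ≤ 2 / Real.pi := by
              rw [div_le_div_iff₀ (by norm_num) (by linarith)]
              linarith [Real.pi_lt_four]
            nlinarith [abs_nonneg x]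
          have h13 : (Real.sin (abs x)) ^ 2 = Real.sin x ^ 2 := by
            rcases abs_cases x with ⟨h, _⟩ | ⟨h, _⟩
            · rw [h]
            · rw [h, Real.sin_neg, neg_sq]
          have h12 : x ^ 2 ≤ (2 * Real.sin |x|) ^ 2 := by
            rw [← sq_abs x]; exact pow_le_pow_left₀ (abs_nonneg x) h9 2
          rw [mul_pow, h13] at h12
          linarith
        have h8 : y ^ 2 ≤ Real.sinh y ^ 2 := by
          rw [← sq_abs y, ← sq_abs (Real.sinh y), Real.abs_sinh]
          exact pow_le_pow_left₀ (abs_nonneg y) (Real.self_le_sinh_iff.2 (abs_nonneg y)) 2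
        rw [← Real.sqrt_eq_rpow]
        apply Real.sqrt_le_iff.2
        refine ⟨norm_nonneg _, ?_⟩
        rw [h6]
        nlinarith [sq_nonneg (Real.sinh y)]
      have h9 : ‖2 * Complex.sin P‖ ^ (-(1/2) : ℝ) ≤ ((x ^ 2 + y ^ 2) ^ (1/2 : ℝ)) ^ (-(1/2) : ℝ) :=
        Real.rpow_le_rpow_of_nonpos (by positivity) h5 (by norm_num)
      refine h9.trans (le_of_eq ?_)
      rw [← Real.rpow_mul hr2.le]; norm_num
    have e4 : ‖cexp (-(k : ℂ) * (Complex.cos P / Complex.sin P))‖ = Real.exp (-(k * rc x y)) := by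
      rw [Complex.norm_exp]; congr 1
      rw [neg_mul, neg_re, mul_re, ofReal_re, ofReal_im, zero_mul, sub_zero, hP, re_cot]
    rw [norm_mul, norm_mul, norm_mul, e1, e2, e4]
    have e5 : (x ^ 2 + y ^ 2) ^ (-(5/4) : ℝ) = (x ^ 2 + y ^ 2) ^ (-1 : ℝ) * (x ^ 2 + y ^ 2) ^ (-(1/4) : ℝ) := by
      rw [← Real.rpow_add hr2]; norm_num
    have e6 : Real.exp (x * T - k * rc x y) = Real.exp (x * T) * Real.exp (-(k * rc x y)) := by
      rw [← Real.exp_add]; ring_nf
    rw [e5, e6]
    calc Real.exp (x * T) * (x ^ 2 + y ^ 2) ^ (-1 : ℝ) *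
        (‖(2 * Complex.sin P) ^ (-(1 / 2) : ℂ)‖ * Real.exp (-(k * rc x y)))
        ≤ Real.exp (x * T) * (x ^ 2 + y ^ 2) ^ (-1 : ℝ) * ((x ^ 2 + y ^ 2) ^ (-(1/4) : ℝ) * Real.exp (-(k * rc x y))) := by
          gcongr
      _ = _ := by ring

end

end Pool.Agent.Y745.HZ
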