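import Pool.Agent.Y745.HZ.Stm

set_option autoImplicit false

/-! Integration by parts against `t ^ (1/4)`. -/

namespace Pool.Agent.Y745.HZ

open Complex MeasureTheory Filter Topology Set

noncomputable section

theorem t_PARTS : P_PARTS := by
  intro D A v K hD hA hK
  set F1 : ℝ → ℝ := fun T => ∫ t in (0:ℝ)..T, D t with hF1
  have d1 : ∀ T, HasDerivAt F1 (D T) T := fun T => (hD.integral_hasStrictDerivAt 0 T).hasDerivAt
  have c1 : Continuous F1 := continuous_iff_continuousAt.2 fun T => (d1 T).continuousAt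
  set F2 : ℝ → ℝ := fun T => ∫ t in (0:ℝ)..T, F1 t with hF2
  have d2 : ∀ T, HasDerivAt F2 (F1 T) T := fun T => (c1.integral_hasStrictDerivAt 0 T).hasDerivAt
  have c2 : Continuous F2 := continuous_iff_continuousAt.2 fun T => (d2 T).continuousAt
  have hF2eq : ∀ T, (∫ t in (0:ℝ)..T, (T - t) * D t) = F2 T := by
    intro T
    have h1 : ∫ t in (0:ℝ)..T, ((T - t) * D t - F1 t) = 0 := by
      have hd : ∀ t ∈ uIcc 0 T, HasDerivAt (fun t => (T - t) * F1 t) ((T - t) * D t - F1 t) t := by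
        intro t _
        have h2 : HasDerivAt (fun t : ℝ => T - t) (-1) t := by
          simpa using (hasDerivAt_id t).const_sub T
        refine (h2.mul (d1 t)).congr_deriv ?_
        ring
      rw [intervalIntegral.integral_eq_sub_of_hasDerivAt hd]
      · have : F1 0 = 0 := by simp [hF1]
        rw [this]; ring
      · apply Continuous.intervalIntegrable
        exact ((by fun_prop : Continuous fun t : ℝ => T - t).mul hD).sub c1
    rw [intervalIntegral.integral_sub] at h1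
    · linarith
    · apply Continuous.intervalIntegrable
      exact (by fun_prop : Continuous fun t : ℝ => T - t).mul hD
    · exact c1.intervalIntegrable _ _
  set E : ℝ → ℝ := fun t => F2 t - v * t with hE
  have cE : Continuous E := c2.sub (by fun_prop)
  have hEb : ∀ t, 1 ≤ t → |E t| ≤ K * √t := by
    intro t ht
    have := hK t ht
    rw [hF2eq] at this
    exact this
  have hK0 : 0 ≤ K := by
    have := hEb 1 le_rfl
    rw [Real.sqrt_one, mul_one] at this
    exact (abs_nonneg _).trans this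
  -- powers
  have hp : ∀ (a t : ℝ), 0 < t → HasDerivAt (fun t : ℝ => t ^ a) (a * t ^ (a - 1)) t := fun a t ht =>
    Real.hasDerivAt_rpow_const (Or.inl ht.ne')
  -- the tail integral
  have itail : ∀ T : ℝ, 1 ≤ T → IntegrableOn (fun t : ℝ => t ^ (-(7/4) : ℝ) * E t) (Ioi T) ∧
      |∫ t in Ioi T, t ^ (-(7/4) : ℝ) * E t| ≤ 4 * K * T ^ (-(1/4) : ℝ) := by
    intro T hT
    have hT0 : 0 < T := by linarith
    have hi : IntegrableOn (fun t : ℝ => K * t ^ (-(5/4) : ℝ)) (Ioi T) :=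
      (integrableOn_Ioi_rpow_of_lt (by norm_num) hT0).const_mul K
    have hb : ∀ t ∈ Ioi T, ‖t ^ (-(7/4) : ℝ) * E t‖ ≤ K * t ^ (-(5/4) : ℝ) := by
      intro t ht
      have ht0 : 0 < t := by linarith [mem_Ioi.1 ht]
      have ht1 : 1 ≤ t := by linarith [mem_Ioi.1 ht]
      rw [norm_mul, Real.norm_of_nonneg (by positivity), Real.norm_eq_abs]
      calc t ^ (-(7/4) : ℝ) * |E t| ≤ t ^ (-(7/4) : ℝ) * (K * √t) :=
            mul_le_mul_of_nonneg_left (hEb t ht1) (by positivity)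
        _ = K * (t ^ (-(7/4) : ℝ) * t ^ (1/2 : ℝ)) := by rw [Real.sqrt_eq_rpow]; ring
        _ = K * t ^ (-(5/4) : ℝ) := by rw [← Real.rpow_add ht0]; norm_num
    constructor
    · refine Integrable.mono' hi ?_ ((ae_restrict_iff' measurableSet_Ioi).2 (Filter.Eventually.of_forall hb))
      apply ContinuousOn.aestronglyMeasurable _ measurableSet_Ioi
      apply ContinuousOn.mul _ cE.continuousOn
      intro t ht
      have ht0 : 0 < t := by linarith [mem_Ioi.1 ht]
      exact (Real.continuousAt_rpow_const t _ (Or.inl ht0.ne')).continuousWithinAt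
    · rw [← Real.norm_eq_abs]
      refine (norm_integral_le_of_norm_le hi ((ae_restrict_iff' measurableSet_Ioi).2
        (Filter.Eventually.of_forall hb))).trans (le_of_eq ?_)
      rw [integral_const_mul, integral_Ioi_rpow_of_lt (by norm_num) hT0]
      norm_num
      ring
  set J := ∫ t in Ioi (1:ℝ), t ^ (-(7/4) : ℝ) * E t with hJ
  set a0 := ∫ t in (0:ℝ)..1, t ^ (1/4 : ℝ) * D t with ha0
  set b0 := ∫ t in (0:ℝ)..1, t * (t ^ (1/4 : ℝ) * D t) with hb0
  refine ⟨a0 - F1 1 + F2 1 / 4 + 3 / 4 * v - 3 / 16 * J,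
    |b0| + |F1 1| + 5 / 4 * |F2 1| + |v| / 4 + K + 3 / 16 * (4 * K) + 5 / 16 * (K * (4 / 3)), fun T hT => ?_⟩
  have hT0 : 0 < T := by linarith
  have cq : Continuous fun t : ℝ => t ^ (1/4 : ℝ) := Real.continuous_rpow_const (by norm_num)
  -- splitting at 1
  have s1 : (∫ t in (0:ℝ)..T, (T - t) * (t ^ (1/4 : ℝ) * D t)) =
      (∫ t in (0:ℝ)..1, (T - t) * (t ^ (1/4 : ℝ) * D t)) + ∫ t in (1:ℝ)..T, (T - t) * (t ^ (1/4 : ℝ) * D t) := by
    rw [intervalIntegral.integral_add_adjacent_intervals]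
    · exact ((by fun_prop : Continuous fun t : ℝ => T - t).mul (cq.mul hD)).intervalIntegrable _ _
    · exact ((by fun_prop : Continuous fun t : ℝ => T - t).mul (cq.mul hD)).intervalIntegrable _ _
  have s2 : (∫ t in (0:ℝ)..1, (T - t) * (t ^ (1/4 : ℝ) * D t)) = T * a0 - b0 := by
    rw [ha0, hb0, ← intervalIntegral.integral_const_mul, ← intervalIntegral.integral_sub]
    · congr 1; ext t; ring
    · exact (continuous_const.mul (cq.mul hD)).intervalIntegrable _ _
    · exact (continuous_id.mul (cq.mul hD)).intervalIntegrable _ _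
  -- the part from 1 to T
  have hpos : ∀ t ∈ uIcc 1 T, 0 < t := by
    intro t ht
    rw [uIcc_of_le hT] at ht
    linarith [ht.1]
  have cpow : ∀ a : ℝ, ContinuousOn (fun t : ℝ => t ^ a) (uIcc 1 T) := fun a t ht =>
    (Real.continuousAt_rpow_const t _ (Or.inl (hpos t ht).ne')).continuousWithinAt
  have s3 : (∫ t in (1:ℝ)..T, ((T - t) * (t ^ (1/4 : ℝ) * D t) -
      (-(3/16) * T * t ^ (-(7/4) : ℝ) - 5/16 * t ^ (-(3/4) : ℝ)) * F2 t)) =
      T ^ (1/4 : ℝ) * F2 T - ((T - 1) * F1 1 - (T / 4 - 5 / 4) * F2 1) := by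
    have hd : ∀ t ∈ uIcc 1 T, HasDerivAt (fun t : ℝ => (T * t ^ (1/4 : ℝ) - t ^ (5/4 : ℝ)) * F1 t -
        (T * ((1/4) * t ^ (-(3/4) : ℝ)) - 5/4 * t ^ (1/4 : ℝ)) * F2 t)
        ((T - t) * (t ^ (1/4 : ℝ) * D t) -
      (-(3/16) * T * t ^ (-(7/4) : ℝ) - 5/16 * t ^ (-(3/4) : ℝ)) * F2 t) t := by
      intro t ht
      have ht0 := hpos t ht
      have g1 : HasDerivAt (fun t : ℝ => T * t ^ (1/4 : ℝ) - t ^ (5/4 : ℝ))
          (T * ((1/4) * t ^ (-(3/4) : ℝ)) - 5/4 * t ^ (1/4 : ℝ)) t := by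
        refine (((hp (1/4) t ht0).const_mul T).sub (hp (5/4) t ht0)).congr_deriv ?_
        norm_num
      have g2 : HasDerivAt (fun t : ℝ => T * ((1/4) * t ^ (-(3/4) : ℝ)) - 5/4 * t ^ (1/4 : ℝ))
          (-(3/16) * T * t ^ (-(7/4) : ℝ) - 5/16 * t ^ (-(3/4) : ℝ)) t := by
        refine ((((hp (-(3/4)) t ht0).const_mul (1/4)).const_mul T).sub ((hp (1/4) t ht0).const_mul (5/4))).congr_deriv ?_
        norm_num
        ring
      have h := (g1.mul (d1 t)).sub (g2.mul (d2 t))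
      refine h.congr_deriv ?_
      have e1 : t ^ (5/4 : ℝ) = t * t ^ (1/4 : ℝ) := by
        rw [show (5/4 : ℝ) = 1 + 1/4 by norm_num, Real.rpow_add ht0, Real.rpow_one]
      rw [e1]; ring
    rw [intervalIntegral.integral_eq_sub_of_hasDerivAt hd]
    · have e1 : T ^ (5/4 : ℝ) = T * T ^ (1/4 : ℝ) := by
        rw [show (5/4 : ℝ) = 1 + 1/4 by norm_num, Real.rpow_add hT0, Real.rpow_one]
      have e2 : T * T ^ (-(3/4) : ℝ) = T ^ (1/4 : ℝ) := by
        conv_lhs => rw [← Real.rpow_one T, ← Real.rpow_mul hT0.le, ← Real.rpow_add hT0]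
        norm_num
      rw [e1]
      simp only [Real.one_rpow]
      linear_combination (-(F2 T) / 4) * e2
    · apply ContinuousOn.intervalIntegrable
      apply ContinuousOn.sub
      · exact ((by fun_prop : Continuous fun t : ℝ => T - t).mul (cq.mul hD)).continuousOn
      · apply ContinuousOn.mul _ c2.continuousOn
        exact (continuousOn_const.mul (cpow _)).sub (continuousOn_const.mul (cpow _))
  have i1 : IntervalIntegrable (fun t : ℝ => (T - t) * (t ^ (1/4 : ℝ) * D t)) volume 1 T :=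
    ((by fun_prop : Continuous fun t : ℝ => T - t).mul (cq.mul hD)).intervalIntegrable _ _
  have i2 : IntervalIntegrable (fun t : ℝ => (-(3/16) * T * t ^ (-(7/4) : ℝ) - 5/16 * t ^ (-(3/4) : ℝ)) * F2 t) volume 1 T := by
    apply ContinuousOn.intervalIntegrable
    apply ContinuousOn.mul _ c2.continuousOn
    exact (continuousOn_const.mul (cpow _)).sub (continuousOn_const.mul (cpow _))
  rw [intervalIntegral.integral_sub i1 i2] at s3
  -- the polynomial part
  have i3 : IntervalIntegrable (fun t : ℝ => t ^ (-(7/4) : ℝ) * E t) volume 1 T :=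
    ((cpow _).mul cE.continuousOn).intervalIntegrable
  have i4 : IntervalIntegrable (fun t : ℝ => t ^ (-(3/4) : ℝ) * E t) volume 1 T :=
    ((cpow _).mul cE.continuousOn).intervalIntegrable
  have i5 : IntervalIntegrable (fun t : ℝ => (-(3/16) * T * t ^ (-(3/4) : ℝ) - 5/16 * t ^ (1/4 : ℝ))) volume 1 T := by
    apply ContinuousOn.intervalIntegrable
    exact (continuousOn_const.mul (cpow _)).sub (continuousOn_const.mul (cpow _))
  have s4 : (∫ t in (1:ℝ)..T, (-(3/16) * T * t ^ (-(7/4) : ℝ) - 5/16 * t ^ (-(3/4) : ℝ)) * F2 t) =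
      v * (∫ t in (1:ℝ)..T, (-(3/16) * T * t ^ (-(3/4) : ℝ) - 5/16 * t ^ (1/4 : ℝ))) +
      (-(3/16) * T * (∫ t in (1:ℝ)..T, t ^ (-(7/4) : ℝ) * E t) - 5/16 * ∫ t in (1:ℝ)..T, t ^ (-(3/4) : ℝ) * E t) := by
    rw [← intervalIntegral.integral_const_mul, ← intervalIntegral.integral_const_mul, ← intervalIntegral.integral_const_mul,
      ← intervalIntegral.integral_sub (i3.const_mul _) (i4.const_mul _),
      ← intervalIntegral.integral_add (i5.const_mul _) ((i3.const_mul _).sub (i4.const_mul _))]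
    apply intervalIntegral.integral_congr
    intro t ht
    have ht0 := hpos t ht
    simp only [hE]
    have e1 : t * t ^ (-(7/4) : ℝ) = t ^ (-(3/4) : ℝ) := by
      conv_lhs => rw [← Real.rpow_one t, ← Real.rpow_mul ht0.le, ← Real.rpow_add ht0]
      norm_num
    have e2 : t * t ^ (-(3/4) : ℝ) = t ^ (1/4 : ℝ) := by
      conv_lhs => rw [← Real.rpow_one t, ← Real.rpow_mul ht0.le, ← Real.rpow_add ht0]
      norm_num
    linear_combination (-(3/16) * T * v) * e1 + (-(5/16) * v) * e2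
  have s5 : (∫ t in (1:ℝ)..T, (-(3/16) * T * t ^ (-(3/4) : ℝ) - 5/16 * t ^ (1/4 : ℝ))) =
      -(T * T ^ (1/4 : ℝ)) + 3/4 * T + 1/4 := by
    have hd : ∀ t ∈ uIcc 1 T, HasDerivAt (fun t : ℝ => -(3/4) * T * t ^ (1/4 : ℝ) - 1/4 * t ^ (5/4 : ℝ))
        (-(3/16) * T * t ^ (-(3/4) : ℝ) - 5/16 * t ^ (1/4 : ℝ)) t := by
      intro t ht
      have ht0 := hpos t ht
      refine (((hp (1/4) t ht0).const_mul (-(3/4) * T)).sub ((hp (5/4) t ht0).const_mul (1/4))).congr_deriv ?_
      norm_num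
      ring
    rw [intervalIntegral.integral_eq_sub_of_hasDerivAt hd i5]
    have e1 : T ^ (5/4 : ℝ) = T * T ^ (1/4 : ℝ) := by
      rw [show (5/4 : ℝ) = 1 + 1/4 by norm_num, Real.rpow_add hT0, Real.rpow_one]
    rw [e1]
    simp only [Real.one_rpow]
    ring
  -- the error integrals
  have s6 : (∫ t in (1:ℝ)..T, t ^ (-(7/4) : ℝ) * E t) = J - ∫ t in Ioi T, t ^ (-(7/4) : ℝ) * E t := by
    rw [hJ, intervalIntegral.integral_of_le hT]
    have hu : Ioi (1:ℝ) = Ioc 1 T ∪ Ioi T := (Ioc_union_Ioi_eq_Ioi hT).symm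
    rw [hu, setIntegral_union (Ioc_disjoint_Ioi le_rfl) measurableSet_Ioi
      ((itail 1 le_rfl).1.mono_set Ioc_subset_Ioi_self) (itail T hT).1]
    ring
  have s7 : |∫ t in (1:ℝ)..T, t ^ (-(3/4) : ℝ) * E t| ≤ K * (4/3) * T ^ (3/4 : ℝ) := by
    have i6 : IntervalIntegrable (fun t : ℝ => K * t ^ (-(1/4) : ℝ)) volume 1 T :=
      ((cpow _).const_smul K).intervalIntegrable
    have h1 : ‖∫ t in (1:ℝ)..T, t ^ (-(3/4) : ℝ) * E t‖ ≤ ∫ t in (1:ℝ)..T, K * t ^ (-(1/4) : ℝ) := by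
      apply intervalIntegral.norm_integral_le_of_norm_le hT _ i6
      refine Filter.Eventually.of_forall fun t ht => ?_
      have ht0 : 0 < t := by linarith [ht.1]
      rw [norm_mul, Real.norm_of_nonneg (by positivity), Real.norm_eq_abs]
      calc t ^ (-(3/4) : ℝ) * |E t| ≤ t ^ (-(3/4) : ℝ) * (K * √t) :=
            mul_le_mul_of_nonneg_left (hEb t ht.1.le) (by positivity)
        _ = K * (t ^ (-(3/4) : ℝ) * t ^ (1/2 : ℝ)) := by rw [Real.sqrt_eq_rpow]; ring
        _ = K * t ^ (-(1/4) : ℝ) := by rw [← Real.rpow_add ht0]; norm_num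
    have hd : ∀ t ∈ uIcc 1 T, HasDerivAt (fun t : ℝ => K * (4/3) * t ^ (3/4 : ℝ)) (K * t ^ (-(1/4) : ℝ)) t := by
      intro t ht
      have ht0 := hpos t ht
      refine ((hp (3/4) t ht0).const_mul (K * (4/3))).congr_deriv ?_
      norm_num
      ring
    rw [intervalIntegral.integral_eq_sub_of_hasDerivAt hd i6, Real.one_rpow, mul_one, Real.norm_eq_abs] at h1
    have : 0 ≤ K * (4/3) := by positivity
    linarith
  have s8 : |T ^ (1/4 : ℝ) * E T| ≤ K * T ^ (3/4 : ℝ) := by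
    rw [abs_mul, abs_of_pos (by positivity)]
    calc T ^ (1/4 : ℝ) * |E T| ≤ T ^ (1/4 : ℝ) * (K * √T) := mul_le_mul_of_nonneg_left (hEb T hT) (by positivity)
      _ = K * (T ^ (1/4 : ℝ) * T ^ (1/2 : ℝ)) := by rw [Real.sqrt_eq_rpow]; ring
      _ = _ := by rw [← Real.rpow_add hT0]; norm_num
  have s9 : |T * ∫ t in Ioi T, t ^ (-(7/4) : ℝ) * E t| ≤ 4 * K * T ^ (3/4 : ℝ) := by
    rw [abs_mul, abs_of_pos hT0]
    calc T * |∫ t in Ioi T, t ^ (-(7/4) : ℝ) * E t| ≤ T * (4 * K * T ^ (-(1/4) : ℝ)) :=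
          mul_le_mul_of_nonneg_left (itail T hT).2 hT0.le
      _ = 4 * K * (T * T ^ (-(1/4) : ℝ)) := by ring
      _ = _ := by
          congr 1
          conv_lhs => rw [← Real.rpow_one T, ← Real.rpow_mul hT0.le, ← Real.rpow_add hT0]
          norm_num
  have hone : 1 ≤ T ^ (3/4 : ℝ) := Real.one_le_rpow hT (by norm_num)
  -- conclusion
  rw [s4, s5, s6] at s3
  set X := ∫ t in Ioi T, t ^ (-(7/4) : ℝ) * E t with hX
  set Y := ∫ t in (1:ℝ)..T, t ^ (-(3/4) : ℝ) * E t with hY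
  have hFT : F2 T = v * T + E T := by simp only [hE]; ring
  have key : (∫ t in (0:ℝ)..T, (T - t) * (t ^ (1/4 : ℝ) * D t)) -
      (a0 - F1 1 + F2 1 / 4 + 3 / 4 * v - 3 / 16 * J) * T =
      -b0 + F1 1 - 5/4 * F2 1 + v / 4 + T ^ (1/4 : ℝ) * E T + 3/16 * (T * X) - 5/16 * Y := by
    rw [s1, s2]
    rw [hFT] at s3
    linear_combination s3
  rw [key]
  have q1 := abs_le.1 s7
  have q2 := abs_le.1 s8
  have q3 := abs_le.1 s9
  have r1 := abs_le.1 (le_refl |b0|)
  have r2 := abs_le.1 (le_refl |F1 1|)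
  have r3 := abs_le.1 (le_refl |F2 1|)
  have r4 := abs_le.1 (le_refl |v|)
  have m1 : |b0| ≤ |b0| * T ^ (3/4 : ℝ) := le_mul_of_one_le_right (abs_nonneg _) hone
  have m2 : |F1 1| ≤ |F1 1| * T ^ (3/4 : ℝ) := le_mul_of_one_le_right (abs_nonneg _) hone
  have m3 : |F2 1| ≤ |F2 1| * T ^ (3/4 : ℝ) := le_mul_of_one_le_right (abs_nonneg _) hone
  have m4 : |v| ≤ |v| * T ^ (3/4 : ℝ) := le_mul_of_one_le_right (abs_nonneg _) hone
  rw [abs_le]
  constructor <;> nlinarith

end

end Pool.Agent.Y745.HZ
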