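import Pool.Agent.Y745.HZ.StmB

set_option autoImplicit false

/-! The bound for the two-sided transform with the sharp trivial exponent. -/

namespace Pool.Agent.Y745.HZ

open Complex MeasureTheory Filter Topology Set
open Pool.Agent.Helper625 Pool.Agent.Helper625.Th Pool.Agent.Helper625.N2

noncomputable section

lemma summ_gauss {r : ℝ} (hr : 0 < r) : Summable (fun n : ℤ => Real.exp (-Real.pi * r * (n : ℝ) ^ 2)) := by
  have h := (hasSum_jacobiTheta₂_term 0 (τ := I * (r : ℂ)) (by simpa using hr)).summable.norm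
  refine h.congr fun n => ?_
  unfold jacobiTheta₂_term
  rw [Complex.norm_exp]
  congr 1
  have : 2 * (Real.pi : ℂ) * I * n * 0 + Real.pi * I * (n : ℂ) ^ 2 * (I * (r : ℂ)) =
      ((-Real.pi * r * (n : ℝ) ^ 2 : ℝ) : ℂ) := by
    push_cast
    linear_combination (Real.pi * (n : ℂ) ^ 2 * r) * I_mul_I
  rw [this, Complex.ofReal_re]

def G1 : ℝ := ∑' n : ℤ, Real.exp (-Real.pi * 1 * (n : ℝ) ^ 2)

lemma G1_nonneg : 0 ≤ G1 := tsum_nonneg fun _ => (Real.exp_pos _).le

lemma sum_small {r : ℝ} (hr : 0 < r) (hr1 : r ≤ 1) :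
    ∑' n : ℤ, Real.exp (-Real.pi * r * (n : ℝ) ^ 2) ≤ G1 * r ^ (-(1/2) : ℝ) := by
  rw [Real.tsum_exp_neg_mul_int_sq hr, one_div, ← Real.rpow_neg hr.le, mul_comm]
  apply mul_le_mul_of_nonneg_right _ (by positivity)
  unfold G1
  have h1 : Summable (fun n : ℤ => Real.exp (-Real.pi / r * (n : ℝ) ^ 2)) := by
    refine (summ_gauss (r := 1 / r) (by positivity)).congr fun n => ?_
    congr 1; ring
  refine h1.tsum_le_tsum (fun n => ?_) (summ_gauss one_pos)
  apply Real.exp_le_exp.2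
  have h2 : 1 ≤ 1 / r := by rw [le_div_iff₀ hr]; linarith
  have h3 : 0 ≤ Real.pi * (n : ℝ) ^ 2 := by positivity
  calc -Real.pi / r * (n : ℝ) ^ 2 = -(Real.pi * (n : ℝ) ^ 2 * (1 / r)) := by ring
    _ ≤ -(Real.pi * (n : ℝ) ^ 2 * 1) := by
        apply neg_le_neg; exact mul_le_mul_of_nonneg_left h2 h3
    _ = _ := by ring

lemma sum_large : ∃ C : ℝ, 0 ≤ C ∧ ∀ r : ℝ, 1 ≤ r →
    ∑' n : ℤ, (if n = 0 then (0:ℝ) else Real.exp (-Real.pi * r * (n : ℝ) ^ 2)) ≤ C * r ^ (-(1/2) : ℝ) := by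
  have hs := (Real.summable_one_div_int_add_rpow 0 2).2 (by norm_num)
  refine ⟨∑' n : ℤ, 1 / |(n : ℝ) + 0| ^ (2:ℝ), tsum_nonneg fun _ => by positivity, fun r hr => ?_⟩
  have hr0 : 0 < r := by linarith
  rw [← tsum_mul_right]
  have hb : ∀ n : ℤ, (if n = 0 then (0:ℝ) else Real.exp (-Real.pi * r * (n : ℝ) ^ 2)) ≤
      1 / |(n : ℝ) + 0| ^ (2:ℝ) * r ^ (-(1/2) : ℝ) := by
    intro n
    by_cases hn : n = 0
    · rw [if_pos hn]; positivity
    · rw [if_neg hn, add_zero, Real.rpow_two, sq_abs]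
      have hn2 : 0 < (n : ℝ) ^ 2 := by
        have : (n : ℝ) ≠ 0 := by exact_mod_cast hn
        positivity
      have h1 : Real.exp (-Real.pi * r * (n : ℝ) ^ 2) ≤ 1 / (r * (n : ℝ) ^ 2) := by
        have h2 : r * (n : ℝ) ^ 2 ≤ Real.exp (Real.pi * r * (n : ℝ) ^ 2) := by
          have h3 := Real.add_one_le_exp (Real.pi * r * (n : ℝ) ^ 2)
          have h4 : r * (n : ℝ) ^ 2 ≤ Real.pi * (r * (n : ℝ) ^ 2) := by
            apply le_mul_of_one_le_left (by positivity); linarith [Real.pi_gt_three]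
          linarith
        rw [show -Real.pi * r * (n : ℝ) ^ 2 = -(Real.pi * r * (n : ℝ) ^ 2) by ring, Real.exp_neg, ← one_div]
        exact one_div_le_one_div_of_le (by positivity) h2
      refine h1.trans ?_
      rw [one_div, mul_inv, mul_comm, one_div]
      apply mul_le_mul_of_nonneg_left _ (by positivity)
      rw [← Real.rpow_neg_one]
      exact Real.rpow_le_rpow_of_exponent_le hr (by norm_num)
  have hs2 := hs.mul_right (r ^ (-(1/2) : ℝ))
  refine Summable.tsum_le_tsum hb ?_ hs2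
  refine Summable.of_nonneg_of_le (fun n => ?_) hb hs2
  split_ifs <;> positivity

lemma jt_half : ∃ C : ℝ, 0 ≤ C ∧ ∀ ζ : ℂ, 0 < ζ.re → ‖jacobiTheta₂ 0 (I * ζ) - 1‖ ≤ C * ζ.re ^ (-(1/2) : ℝ) := by
  obtain ⟨C, hC, hlarge⟩ := sum_large
  refine ⟨C + G1, add_nonneg hC G1_nonneg, fun ζ hζ => ?_⟩
  have him : 0 < (I * ζ).im := by rw [I_mul_im]; exact hζ
  have h1 := (hasSum_jacobiTheta₂_term 0 him).sub (hasSum_ite_eq (0:ℤ) (1:ℂ))
  have hb : ∀ n : ℤ, ‖jacobiTheta₂_term n 0 (I * ζ) - (if n = 0 then (1:ℂ) else 0)‖ ≤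
      (if n = 0 then (0:ℝ) else Real.exp (-Real.pi * ζ.re * (n : ℝ) ^ 2)) := by
    intro n
    by_cases hn : n = 0
    · subst hn
      simp [jacobiTheta₂_term]
    · rw [if_neg hn, if_neg hn, sub_zero]
      unfold jacobiTheta₂_term
      rw [Complex.norm_exp]
      apply le_of_eq
      congr 1
      have : 2 * (Real.pi : ℂ) * I * n * 0 + Real.pi * I * (n : ℂ) ^ 2 * (I * ζ) = ((-(Real.pi * (n : ℝ) ^ 2) : ℝ) : ℂ) * ζ := by
        push_cast
        linear_combination (Real.pi * (n : ℂ) ^ 2 * ζ) * I_mul_I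
      rw [this, Complex.re_ofReal_mul]
      ring
  have hs : Summable (fun n : ℤ => (if n = 0 then (0:ℝ) else Real.exp (-Real.pi * ζ.re * (n : ℝ) ^ 2))) := by
    refine Summable.of_nonneg_of_le (fun n => ?_) (fun n => ?_) (summ_gauss hζ)
    · split_ifs <;> positivity
    · split_ifs <;> first | positivity | exact le_rfl
  have h2 := h1.norm_le_of_bounded hs.hasSum hb
  refine h2.trans ?_
  have hr0 : 0 ≤ ζ.re ^ (-(1/2) : ℝ) := by positivity
  rcases le_total 1 ζ.re with h | h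
  · have := hlarge _ h
    nlinarith [mul_nonneg G1_nonneg hr0]
  · have h3 := sum_small hζ h
    have h4 : ∑' n : ℤ, (if n = 0 then (0:ℝ) else Real.exp (-Real.pi * ζ.re * (n : ℝ) ^ 2)) ≤
        ∑' n : ℤ, Real.exp (-Real.pi * ζ.re * (n : ℝ) ^ 2) := by
      refine hs.tsum_le_tsum (fun n => ?_) (summ_gauss hζ)
      split_ifs <;> first | positivity | exact le_rfl
    nlinarith [mul_nonneg hC hr0]

theorem t_RR : P_RR := by
  obtain ⟨Cb', hCb, hjt⟩ := jt_half
  have hpi := Real.pi_pos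
  refine ⟨2 * Real.pi * (Cb' + 1), by positivity, ?_⟩
  have hposcase : ∀ w ∈ S, 0 ≤ w.re → ‖T w‖ ≤ 2 * Real.pi * (Cb' + 1) * dd w ^ (-(1/2) : ℝ) := by
    intro w hw h0
    have hw' : |w.im| < Real.pi / 4 := hw
    have hd : 0 < dd w := by unfold dd; linarith
    have hd1 : dd w ≤ 1 := by
      unfold dd; have := abs_nonneg w.im; linarith [Real.pi_lt_four]
    have h2re : (2 * w).re = 2 * w.re := by simp
    have h2im : (2 * w).im = 2 * w.im := by simp
    have hζ : (cexp (2 * w)).re = Real.exp (2 * w.re) * Real.cos (2 * w.im) := by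
      rw [Complex.exp_re, h2re, h2im]
    have hcos : dd w ≤ Real.cos (2 * w.im) := by
      rw [← Real.cos_abs, abs_mul, abs_of_pos (by norm_num : (0:ℝ) < 2)]
      have e : 2 * |w.im| = Real.pi / 2 - 2 * dd w := by unfold dd; ring
      rw [e, Real.cos_pi_div_two_sub]
      have hs : 2 / Real.pi * (2 * dd w) ≤ Real.sin (2 * dd w) := Real.mul_le_sin (by linarith) (by
        unfold dd; have := abs_nonneg w.im; linarith)
      refine le_trans ?_ hs
      have : 1 ≤ 4 / Real.pi := by rw [le_div_iff₀ hpi]; linarith [Real.pi_lt_four]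
      calc dd w = 1 * dd w := (one_mul _).symm
        _ ≤ 4 / Real.pi * dd w := mul_le_mul_of_nonneg_right this hd.le
        _ = _ := by ring
    have hζ0 : 0 < (cexp (2 * w)).re := by
      rw [hζ]; exact mul_pos (Real.exp_pos _) (lt_of_lt_of_le hd hcos)
    have hj := hjt _ hζ0
    have hdd : 0 < dd w ^ (-(1/2) : ℝ) := Real.rpow_pos_of_pos hd _
    have hdd1 : 1 ≤ dd w ^ (-(1/2) : ℝ) := Real.one_le_rpow_of_pos_of_le_one_of_nonpos hd hd1 (by norm_num)
    have h1 : (cexp (2 * w)).re ^ (-(1/2) : ℝ) ≤ Real.exp (-w.re) * dd w ^ (-(1/2) : ℝ) := by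
      rw [hζ, Real.mul_rpow (Real.exp_pos _).le (le_trans hd.le hcos), ← Real.exp_mul]
      have h3 : Real.cos (2 * w.im) ^ (-(1/2) : ℝ) ≤ dd w ^ (-(1/2) : ℝ) := Real.rpow_le_rpow_of_nonpos hd hcos (by norm_num)
      have e : (2 * w.re * -(1/2) : ℝ) = -w.re := by ring
      rw [e]
      exact mul_le_mul_of_nonneg_left h3 (Real.exp_pos _).le
    have e1 : T w = 2 * Real.pi * (cexp (w / 2) * (jacobiTheta₂ 0 (I * cexp (2 * w)) - 1) - cexp (-(w / 2))) := by
      unfold T; ring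
    have hn1 : ‖cexp (w / 2)‖ = Real.exp (w.re / 2) := by
      rw [Complex.norm_exp]; congr 1; simp
    have hn2 : ‖cexp (-(w / 2))‖ = Real.exp (-(w.re / 2)) := by
      rw [Complex.norm_exp]; congr 1; simp
    have h2pi : ‖(2 * Real.pi : ℂ)‖ = 2 * Real.pi := by
      rw [norm_mul, Complex.norm_real, Real.norm_of_nonneg hpi.le]; simp
    rw [e1, norm_mul, h2pi]
    rw [mul_assoc (2 * Real.pi)]
    apply mul_le_mul_of_nonneg_left _ (by positivity)
    refine (norm_sub_le _ _).trans ?_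
    rw [norm_mul, hn1, hn2]
    have hA : Real.exp (w.re / 2) * ‖jacobiTheta₂ 0 (I * cexp (2 * w)) - 1‖ ≤ Cb' * dd w ^ (-(1/2) : ℝ) := by
      calc Real.exp (w.re / 2) * ‖jacobiTheta₂ 0 (I * cexp (2 * w)) - 1‖
          ≤ Real.exp (w.re / 2) * (Cb' * (Real.exp (-w.re) * dd w ^ (-(1/2) : ℝ))) := by
            apply mul_le_mul_of_nonneg_left _ (Real.exp_pos _).le
            exact hj.trans (mul_le_mul_of_nonneg_left h1 hCb)
        _ = (Real.exp (w.re / 2) * Real.exp (-w.re)) * (Cb' * dd w ^ (-(1/2) : ℝ)) := by ring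
        _ ≤ 1 * (Cb' * dd w ^ (-(1/2) : ℝ)) := by
            apply mul_le_mul_of_nonneg_right _ (by positivity)
            rw [← Real.exp_add, Real.exp_le_one_iff]
            linarith
        _ = _ := one_mul _
    have hB : Real.exp (-(w.re / 2)) ≤ dd w ^ (-(1/2) : ℝ) := by
      refine le_trans ?_ hdd1
      rw [Real.exp_le_one_iff]; linarith
    linarith
  intro w hw
  have hgoal : ‖R w‖ ≤ 2 * Real.pi * (Cb' + 1) * dd w ^ (-(1/2) : ℝ) := by
    rcases le_total 0 w.re with h | h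
    · rw [R_eq_T hw]; exact hposcase w hw h
    · have hw2 : -w ∈ S := by
        show |(-w).im| < Real.pi / 4
        rw [neg_im, abs_neg]; exact hw
      have hd : dd (-w) = dd w := by unfold dd; rw [neg_im, abs_neg]
      rw [← R_neg, R_eq_T hw2, ← hd]
      exact hposcase _ hw2 (by rw [neg_re]; linarith)
  exact hgoal

end

end Pool.Agent.Y745.HZ
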