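import Pool.Agent.Y745.HZ.Stm

set_option autoImplicit false

/-! Moving the path of integration. -/

namespace Pool.Agent.Y745.HZ

open Complex MeasureTheory Filter Topology Set

noncomputable section

/-- one rectangle: vertical side `x = a` against the side `x = b` -/
lemma rect_one (f : ℂ → ℂ) {a b c d : ℝ}
    (hd : ∀ x ∈ uIcc a b, ∀ y ∈ uIcc c d, DifferentiableAt ℂ f ((x : ℂ) + (y : ℂ) * I)) :
    ‖∫ y in c..d, f ((a : ℂ) + (y : ℂ) * I)‖ ≤ ‖∫ y in c..d, f ((b : ℂ) + (y : ℂ) * I)‖ +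
      ‖∫ x in a..b, f ((x : ℂ) + (c : ℂ) * I)‖ + ‖∫ x in a..b, f ((x : ℂ) + (d : ℂ) * I)‖ := by
  have h := Complex.integral_boundary_rect_eq_zero_of_differentiableOn f ((a : ℂ) + (c : ℂ) * I)
    ((b : ℂ) + (d : ℂ) * I) (by
      intro z hz
      rw [Complex.mem_reProdIm] at hz
      simp only [add_re, ofReal_re, mul_re, I_re, mul_zero, ofReal_im, I_im, mul_one, sub_zero, add_zero, add_im,
        mul_im, zero_add] at hz
      have := hd z.re hz.1 z.im hz.2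
      rw [Complex.re_add_im] at this
      exact this.differentiableWithinAt)
  simp only [add_re, ofReal_re, mul_re, I_re, mul_zero, ofReal_im, I_im, mul_one, sub_zero, add_zero, add_im,
        mul_im, zero_add, smul_eq_mul] at h
  have h2 : I * (∫ y in c..d, f ((a : ℂ) + (y : ℂ) * I)) = (∫ x in a..b, f ((x : ℂ) + (c : ℂ) * I)) -
      (∫ x in a..b, f ((x : ℂ) + (d : ℂ) * I)) + I * ∫ y in c..d, f ((b : ℂ) + (y : ℂ) * I) := by
    linear_combination -h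
  have h3 : ‖∫ y in c..d, f ((a : ℂ) + (y : ℂ) * I)‖ = ‖I * (∫ y in c..d, f ((a : ℂ) + (y : ℂ) * I))‖ := by
    rw [norm_mul, norm_I, one_mul]
  rw [h3, h2]
  refine (norm_add_le _ _).trans ?_
  rw [norm_mul, norm_I, one_mul]
  have := norm_sub_le (∫ x in a..b, f ((x : ℂ) + (c : ℂ) * I)) (∫ x in a..b, f ((x : ℂ) + (d : ℂ) * I))
  linarith

lemma norm_swap (g : ℝ → ℂ) (a b : ℝ) (h : b ≤ a) : ‖∫ x in a..b, g x‖ ≤ ∫ x in b..a, ‖g x‖ := by
  rw [intervalIntegral.integral_symm, norm_neg]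
  exact intervalIntegral.norm_integral_le_integral_norm h

theorem t_RECT : P_RECT := by
  intro f a w ρ ha haw hw hρ0 hρ1 hf
  have hcy : ∀ x : ℝ, |x| ≤ 1 → ∀ c d : ℝ, |c| ≤ 1 → |d| ≤ 1 → (∀ y ∈ uIcc c d, 0 < x ∨ y ≠ 0) →
      IntervalIntegrable (fun y : ℝ => f ((x : ℂ) + (y : ℂ) * I)) volume c d := by
    intro x hx c d hc hd h
    apply ContinuousOn.intervalIntegrable
    intro y hy
    have hy1 : |y| ≤ 1 := by
      rw [abs_le] at *
      rcases mem_uIcc.1 hy with h | h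
      · exact ⟨by linarith [h.1, hc.1], by linarith [h.2, hd.2]⟩
      · exact ⟨by linarith [h.1, hd.1], by linarith [h.2, hc.2]⟩
    apply ContinuousAt.continuousWithinAt
    exact (hf x y hx hy1 (h y hy)).continuousAt.comp (f := fun y : ℝ => ((x : ℂ) + (y : ℂ) * I)) (by fun_prop)
  have hcx : ∀ y : ℝ, |y| ≤ 1 → y ≠ 0 → ∀ c d : ℝ, |c| ≤ 1 → |d| ≤ 1 →
      IntervalIntegrable (fun x : ℝ => f ((x : ℂ) + (y : ℂ) * I)) volume c d := by
    intro y hy hy0 c d hc hd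
    apply ContinuousOn.intervalIntegrable
    intro x hx
    have hx1 : |x| ≤ 1 := by
      rw [abs_le] at *
      rcases mem_uIcc.1 hx with h | h
      · exact ⟨by linarith [h.1, hc.1], by linarith [h.2, hd.2]⟩
      · exact ⟨by linarith [h.1, hd.1], by linarith [h.2, hc.2]⟩
    apply ContinuousAt.continuousWithinAt
    exact (hf x y hx1 hy (Or.inr hy0)).continuousAt.comp (f := fun x : ℝ => ((x : ℂ) + (y : ℂ) * I)) (by fun_prop)
  have hw0 : 0 < w := by linarith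
  have ha1 : |a| ≤ 1 := by rw [abs_of_pos ha]; linarith
  have hw1 : |w| ≤ 1 := by rw [abs_of_pos hw0]; exact hw
  have hw2 : |(-w)| ≤ 1 := by rw [abs_neg]; exact hw1
  have hρa : |ρ| ≤ 1 := by rw [abs_of_pos hρ0]; exact hρ1
  have hρb : |(-ρ)| ≤ 1 := by rw [abs_neg]; exact hρa
  have h11 : |(1:ℝ)| ≤ 1 := by simp
  have h12 : |(-1:ℝ)| ≤ 1 := by simp
  -- splitting of the vertical integral
  have hs1 := intervalIntegral.integral_add_adjacent_intervals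
    (hcy a ha1 (-1) (-ρ) h12 hρb (fun _ _ => Or.inl ha)) (hcy a ha1 (-ρ) ρ hρb hρa (fun _ _ => Or.inl ha))
  have hs2 := intervalIntegral.integral_add_adjacent_intervals
    (hcy a ha1 (-1) ρ h12 hρa (fun _ _ => Or.inl ha)) (hcy a ha1 ρ 1 hρa h11 (fun _ _ => Or.inl ha))
  rw [← hs2, ← hs1]
  -- three rectangles
  have A := rect_one f (a := a) (b := w) (c := -ρ) (d := ρ) (fun x hx y hy => by
    rw [uIcc_of_le haw] at hx
    rw [uIcc_of_le (by linarith)] at hy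
    exact hf x y (abs_le.2 ⟨by linarith [hx.1], by linarith [hx.2]⟩) (abs_le.2 ⟨by linarith [hy.1], by linarith [hy.2]⟩)
      (Or.inl (by linarith [hx.1])))
  have B := rect_one f (a := a) (b := -w) (c := ρ) (d := 1) (fun x hx y hy => by
    rw [uIcc_of_ge (by linarith)] at hx
    rw [uIcc_of_le hρ1] at hy
    exact hf x y (abs_le.2 ⟨by linarith [hx.1], by linarith [hx.2]⟩) (abs_le.2 ⟨by linarith [hy.1], by linarith [hy.2]⟩)
      (Or.inr (by linarith [hy.1])))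
  have C := rect_one f (a := a) (b := -w) (c := -1) (d := -ρ) (fun x hx y hy => by
    rw [uIcc_of_ge (by linarith)] at hx
    rw [uIcc_of_le (by linarith)] at hy
    refine hf x y (abs_le.2 ⟨by linarith [hx.1], by linarith [hx.2]⟩) (abs_le.2 ⟨by linarith [hy.1], by linarith [hy.2]⟩)
      (Or.inr ?_)
    intro h; rw [h] at hy; linarith [hy.2])
  -- bounds of the pieces
  have a1 : ‖∫ y in (-ρ)..ρ, f ((w : ℂ) + (y : ℂ) * I)‖ ≤ ∫ y in (-ρ)..ρ, ‖f ((w : ℂ) + (y : ℂ) * I)‖ :=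
    intervalIntegral.norm_integral_le_integral_norm (by linarith)
  have a2 : ‖∫ x in a..w, f ((x : ℂ) + ((-ρ : ℝ) : ℂ) * I)‖ ≤ ∫ x in a..w, ‖f ((x : ℂ) + ((-ρ : ℝ) : ℂ) * I)‖ :=
    intervalIntegral.norm_integral_le_integral_norm haw
  have a3 : ‖∫ x in a..w, f ((x : ℂ) + (ρ : ℂ) * I)‖ ≤ ∫ x in a..w, ‖f ((x : ℂ) + (ρ : ℂ) * I)‖ :=
    intervalIntegral.norm_integral_le_integral_norm haw
  have b1 : ‖∫ y in ρ..1, f (((-w : ℝ) : ℂ) + (y : ℂ) * I)‖ ≤ ∫ y in ρ..1, ‖f (((-w : ℝ) : ℂ) + (y : ℂ) * I)‖ :=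
    intervalIntegral.norm_integral_le_integral_norm hρ1
  have b2 := norm_swap (fun x : ℝ => f ((x : ℂ) + (ρ : ℂ) * I)) a (-w) (by linarith)
  have b3 := norm_swap (fun x : ℝ => f ((x : ℂ) + ((1 : ℝ) : ℂ) * I)) a (-w) (by linarith)
  have c1 : ‖∫ y in (-1)..(-ρ), f (((-w : ℝ) : ℂ) + (y : ℂ) * I)‖ ≤
      ∫ y in (-1)..(-ρ), ‖f (((-w : ℝ) : ℂ) + (y : ℂ) * I)‖ :=
    intervalIntegral.norm_integral_le_integral_norm (by linarith)
  have c2 := norm_swap (fun x : ℝ => f ((x : ℂ) + ((-ρ : ℝ) : ℂ) * I)) a (-w) (by linarith)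
  have c3 := norm_swap (fun x : ℝ => f ((x : ℂ) + ((-1 : ℝ) : ℂ) * I)) a (-w) (by linarith)
  have c4 : (∫ y in (-1)..(-ρ), ‖f (((-w : ℝ) : ℂ) + (y : ℂ) * I)‖) =
      ∫ y in ρ..1, ‖f (((-w : ℝ) : ℂ) + ((-y : ℝ) : ℂ) * I)‖ := by
    have := intervalIntegral.integral_comp_neg (fun y : ℝ => ‖f (((-w : ℝ) : ℂ) + (y : ℂ) * I)‖) (a := ρ) (b := 1)
    exact this.symm
  -- integrabilities of norms
  have i1 := (hcy (-w) hw2 ρ 1 hρa h11 (fun y hy => by
    right; rw [uIcc_of_le hρ1] at hy; linarith [hy.1])).norm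
  have i2 : IntervalIntegrable (fun y : ℝ => ‖f (((-w : ℝ) : ℂ) + ((-y : ℝ) : ℂ) * I)‖) volume ρ 1 := by
    have h := (hcy (-w) hw2 (-ρ) (-1) hρb h12 (fun y hy => by
      right
      rw [uIcc_of_ge (by linarith)] at hy
      intro h; rw [h] at hy; linarith [hy.2])).norm
    have h4 := (IntervalIntegrable.comp_mul_left_iff (f := fun y : ℝ => ‖f (((-w : ℝ) : ℂ) + (y : ℂ) * I)‖)
      (a := -ρ) (b := -1) (c := -1) (by norm_num)).2 (by simpa using h)
    simpa using h4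
  have j1 := (hcx ρ hρa hρ0.ne' (-w) a hw2 ha1).norm
  have j2 := (hcx ρ hρa hρ0.ne' a w ha1 hw1).norm
  have j3 := (hcx (-ρ) hρb (neg_ne_zero.2 hρ0.ne') (-w) a hw2 ha1).norm
  have j4 := (hcx (-ρ) hρb (neg_ne_zero.2 hρ0.ne') a w ha1 hw1).norm
  have j5 := (hcx 1 h11 one_ne_zero (-w) a hw2 ha1).norm
  have j6 := (hcx (-1) h12 (by norm_num) (-w) a hw2 ha1).norm
  have k1 := intervalIntegral.integral_add_adjacent_intervals j1 j2
  have k2 := intervalIntegral.integral_add_adjacent_intervals j3 j4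
  rw [intervalIntegral.integral_add i1 i2, intervalIntegral.integral_add (j1.trans j2) (j3.trans j4),
    intervalIntegral.integral_add j5 j6, ← k1, ← k2]
  rw [c4] at c1
  have t1 := norm_add_le ((∫ y in (-1 : ℝ)..(-ρ), f ((a : ℂ) + (y : ℂ) * I)) +
    ∫ y in (-ρ)..ρ, f ((a : ℂ) + (y : ℂ) * I)) (∫ y in ρ..1, f ((a : ℂ) + (y : ℂ) * I))
  have t2 := norm_add_le (∫ y in (-1 : ℝ)..(-ρ), f ((a : ℂ) + (y : ℂ) * I)) (∫ y in (-ρ)..ρ, f ((a : ℂ) + (y : ℂ) * I))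
  simp only [ofReal_neg, ofReal_one] at *
  linarith

end

end Pool.Agent.Y745.HZ
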