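import Pool.Agent.Y745.HZ.Key

set_option autoImplicit false

/-! The bound for the theta part near the cusp. -/

namespace Pool.Agent.Y745.HZ

open Complex MeasureTheory Filter Topology Set

noncomputable section

/-- the parameters -/
def kn (n : ℤ) : ℝ := Real.pi / 2 * ((n : ℝ) - 1 / 2) ^ 2

lemma half_sq_ge (n : ℤ) : (1:ℝ) / 4 ≤ ((n : ℝ) - 1 / 2) ^ 2 := by
  have h : (0:ℝ) ≤ (n : ℝ) * ((n : ℝ) - 1) := by
    rcases le_or_gt n 0 with h | h
    · have h1 : (n : ℝ) ≤ 0 := by exact_mod_cast h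
      nlinarith
    · have h1 : (1:ℝ) ≤ n := by exact_mod_cast h
      nlinarith
  nlinarith

lemma kn_ge (n : ℤ) : 1 / 3 ≤ kn n := by
  unfold kn
  have := half_sq_ge n
  have := Real.pi_gt_three
  nlinarith

lemma kn_summable : Summable (fun n : ℤ => 1 / kn n) := by
  have h := (Real.summable_one_div_int_add_rpow (-(1/2)) 2).2 (by norm_num)
  refine (h.mul_left (2 / Real.pi)).congr fun n => ?_
  unfold kn
  rw [show (n:ℝ) + -(1/2) = (n:ℝ) - 1/2 by ring, Real.rpow_two, sq_abs]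
  have := half_sq_ge n
  have hpi := Real.pi_pos
  have h2 : ((n:ℝ) - 1/2) ^ 2 ≠ 0 := by positivity
  field_simp

/-- the theta function near the cusp -/
def TH (P : ℂ) : ℂ := cexp ((I * (((Real.pi / 4 : ℝ) : ℂ) - P)) / 2) *
      jacobiTheta₂ 0 (I * cexp (2 * (I * (((Real.pi / 4 : ℝ) : ℂ) - P))))

lemma rc_lower {x y : ℝ} (hx0 : 0 < x) (hx1 : x ≤ 1) (hy : |y| ≤ 1) : rc x 1 ≤ rc x y := by
  unfold rc
  have h1 : 0 < Real.sin x := Real.sin_pos_of_pos_of_lt_pi hx0 (by linarith [Real.pi_gt_three])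
  have h2 : 0 < Real.cos x := Real.cos_pos_of_le_one (by rw [abs_of_pos hx0]; exact hx1)
  apply div_le_div_of_nonneg_left (by positivity) (by positivity)
  have h3 : |Real.sinh y| ≤ |Real.sinh 1| := by
    rw [Real.abs_sinh, abs_of_pos (Real.sinh_pos_iff.2 one_pos)]
    exact Real.sinh_le_sinh.2 hy
  have := sq_le_sq.2 h3
  linarith

lemma theta_part (hN : P_NRM) (hR : P_RECT) (hI : P_IN) (hO : P_OUT) (hH : P_HOR) (hF : P_FAR) (hG : P_GS)
    (hT : P_TH) :
    ∃ C : ℝ, 0 < C ∧ ∀ T : ℝ, 10000 ≤ T →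
      ‖∫ y in (-1 : ℝ)..1, cexp ((((1 / T : ℝ) : ℂ) + (y : ℂ) * I) * T) *
        ((((1 / T : ℝ) : ℂ) + (y : ℂ) * I) ^ 2)⁻¹ * TH (((1 / T : ℝ) : ℂ) + (y : ℂ) * I)‖ ≤ C * √T := by
  obtain ⟨C1, hC1, h1⟩ := term_near hN hR hI hO hH
  obtain ⟨C2, hC2, h2⟩ := term_far hN hF
  obtain ⟨C3, hC3, h3⟩ := hG
  obtain ⟨c, hc, hsum⟩ := hT
  set S := ∑' n : ℤ, 1 / kn n with hS
  have hS0 : 0 ≤ S := tsum_nonneg fun n => by
    have := kn_ge n
    have : 0 < kn n := by linarith
    positivity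
  refine ⟨C1 * S + C2 * (C3 * 3) + 1, by positivity, fun T hT => ?_⟩
  have hT0 : 0 < T := by linarith
  have hpi := Real.pi_gt_three
  have hpi4 := Real.pi_lt_four
  have ha0 : 0 < 1 / T := by positivity
  have ha1 : 1 / T ≤ 1 := by rw [div_le_iff₀ hT0]; linarith
  have haabs : |1 / T| ≤ 1 := by rw [abs_of_pos ha0]; exact ha1
  -- the terms
  set F : ℤ → ℝ → ℂ := fun n y => c n * ff T (kn n) (((1 / T : ℝ) : ℂ) + (y : ℂ) * I) with hF'
  set f : ℝ → ℂ := fun y => cexp ((((1 / T : ℝ) : ℂ) + (y : ℂ) * I) * T) *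
        ((((1 / T : ℝ) : ℂ) + (y : ℂ) * I) ^ 2)⁻¹ * TH (((1 / T : ℝ) : ℂ) + (y : ℂ) * I) with hf
  have hlim : ∀ y : ℝ, HasSum (fun n => F n y) (f y) := by
    intro y
    have hre : ((((1 / T : ℝ) : ℂ) + (y : ℂ) * I)).re = 1 / T := by simp
    have h4 := hsum (((1 / T : ℝ) : ℂ) + (y : ℂ) * I) (by rw [hre]; exact ha0) (by rw [hre]; linarith)
    have h5 := h4.mul_left (cexp ((((1 / T : ℝ) : ℂ) + (y : ℂ) * I) * T) *
        ((((1 / T : ℝ) : ℂ) + (y : ℂ) * I) ^ 2)⁻¹)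
    refine h5.congr_fun fun n => ?_
    simp only [hF', ff, kn]
    ring
  -- dominating constants
  set cT := rc (1 / T) 1 with hcT
  have hcT0 : 0 < cT := by
    rw [hcT]; unfold rc
    have b1 : 0 < Real.sin (1 / T) := Real.sin_pos_of_pos_of_lt_pi ha0 (by linarith)
    have b2 : 0 < Real.cos (1 / T) := Real.cos_pos_of_le_one haabs
    positivity
  have hbd : ∀ n : ℤ, ∀ y : ℝ, |y| ≤ 1 → ‖F n y‖ ≤
      ((1 / T) ^ 2) ^ (-(5/4) : ℝ) * Real.exp 1 * Real.exp (-(kn n * cT)) := by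
    intro n y hy
    have b1 := (hN T (kn n) (1 / T) y haabs hy (Or.inl ha0)).2
    simp only [hF']
    rw [norm_mul, hc n, one_mul]
    refine b1.trans ?_
    unfold hh
    have hk0 : 0 < kn n := by linarith [kn_ge n]
    have b2 : ((1 / T) ^ 2 + y ^ 2) ^ (-(5/4) : ℝ) ≤ ((1 / T) ^ 2) ^ (-(5/4) : ℝ) :=
      Real.rpow_le_rpow_of_nonpos (by positivity) (by nlinarith [sq_nonneg y]) (by norm_num)
    have b3 := rc_lower ha0 ha1 hy
    have b4 : Real.exp (1 / T * T - kn n * rc (1 / T) y) ≤ Real.exp 1 * Real.exp (-(kn n * cT)) := by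
      rw [← Real.exp_add]
      apply Real.exp_le_exp.2
      have : 1 / T * T = 1 := by field_simp
      rw [this]
      nlinarith
    calc _ ≤ ((1 / T) ^ 2) ^ (-(5/4) : ℝ) * (Real.exp 1 * Real.exp (-(kn n * cT))) := by gcongr
      _ = _ := by ring
  have hexps : Summable (fun n : ℤ => Real.exp (-(kn n * cT))) := by
    set v := min (Real.pi / 2 * cT) 1 with hv
    have hv0 : 0 < v := by positivity
    refine Summable.of_nonneg_of_le (fun n => (Real.exp_pos _).le) (fun n => ?_) (h3 v hv0 (min_le_right _ _)).1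
    apply Real.exp_le_exp.2
    unfold kn
    have b1 : v ≤ Real.pi / 2 * cT := min_le_left _ _
    have b2 : 0 ≤ ((n : ℝ) - 1 / 2) ^ 2 := sq_nonneg _
    nlinarith
  have hcont : ∀ n, IntervalIntegrable (F n) volume (-1) 1 := fun n =>
    (ff_int_y hN T (kn n) haabs (by simp) (by simp) (fun _ _ => Or.inl ha0)).const_mul (c n)
  have hint := intervalIntegral.hasSum_integral_of_dominated_convergence (μ := volume) (a := -1) (b := 1)
    (F := F) (f := f) (fun n _ => ((1 / T) ^ 2) ^ (-(5/4) : ℝ) * Real.exp 1 * Real.exp (-(kn n * cT)))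
    (fun n => by
      have := (hcont n).aestronglyMeasurable
      rwa [uIoc_of_le (by norm_num : (-1:ℝ) ≤ 1)])
    (fun n => by
      refine Filter.Eventually.of_forall fun y hy => hbd n y ?_
      rw [uIoc_of_le (by norm_num : (-1:ℝ) ≤ 1)] at hy
      exact abs_le.2 ⟨hy.1.le, hy.2⟩)
    (Filter.Eventually.of_forall fun y _ => hexps.mul_left _)
    (intervalIntegrable_const)
    (Filter.Eventually.of_forall fun y _ => hlim y)
  -- bounds for the integrals of the terms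
  have hterm : ∀ n : ℤ, ‖∫ y in (-1:ℝ)..1, F n y‖ ≤ C1 * √T * (1 / kn n) +
      C2 * Real.exp (-(Real.pi / (20 * T) * ((n : ℝ) - 1 / 2) ^ 2)) := by
    intro n
    have hk0 : 0 < kn n := by linarith [kn_ge n]
    simp only [hF']
    rw [intervalIntegral.integral_const_mul, norm_mul, hc n, one_mul]
    rcases le_total (kn n) (Real.sinh 1 ^ 2 * T) with h | h
    · have b1 := h1 T (kn n) hT (kn_ge n) h
      have b2 : 0 ≤ C2 * Real.exp (-(Real.pi / (20 * T) * ((n : ℝ) - 1 / 2) ^ 2)) := by positivity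
      calc _ ≤ C1 * (√T / kn n) := b1
        _ = C1 * √T * (1 / kn n) := by ring
        _ ≤ _ := by linarith
    · have b1 := h2 T (kn n) hT h
      have b2 : 0 ≤ C1 * √T * (1 / kn n) := by positivity
      have b3 : kn n / (10 * T) = Real.pi / (20 * T) * ((n : ℝ) - 1 / 2) ^ 2 := by
        unfold kn; field_simp; ring
      rw [b3] at b1
      linarith
  have hv0 : 0 < Real.pi / (20 * T) := by positivity
  have hv1 : Real.pi / (20 * T) ≤ 1 := by
    rw [div_le_iff₀ (by positivity)]; linarith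
  obtain ⟨g1, g2⟩ := h3 _ hv0 hv1
  have hgs := (kn_summable.mul_left (C1 * √T)).add (g1.mul_left C2)
  have hfin := hint.norm_le_of_bounded hgs.hasSum hterm
  refine hfin.trans ?_
  rw [(kn_summable.mul_left (C1 * √T)).tsum_add (g1.mul_left C2), tsum_mul_left, tsum_mul_left, ← hS]
  have hsq : 1 ≤ √T := by
    rw [show (1:ℝ) = √1 by simp]
    exact Real.sqrt_le_sqrt (by linarith)
  have g3 : C3 / √(Real.pi / (20 * T)) ≤ C3 * 3 * √T := by
    have e1 : √T ^ 2 = T := Real.sq_sqrt hT0.le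
    have e2 : (1:ℝ) / (3 * √T) ≤ √(Real.pi / (20 * T)) := by
      apply Real.le_sqrt_of_sq_le
      rw [div_pow, mul_pow, e1, div_le_div_iff₀ (by positivity) (by positivity)]
      nlinarith
    have e3 : 0 < √(Real.pi / (20 * T)) := Real.sqrt_pos.2 hv0
    rw [div_le_iff₀ e3]
    have e4 : 1 ≤ 3 * √T * √(Real.pi / (20 * T)) := by
      have := mul_le_mul_of_nonneg_left e2 (by positivity : 0 ≤ 3 * √T)
      rwa [mul_one_div_cancel (by positivity)] at this
    nlinarith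
  have g4 : C2 * ∑' n : ℤ, Real.exp (-(Real.pi / (20 * T) * ((n : ℝ) - 1 / 2) ^ 2)) ≤ C2 * (C3 * 3) * √T := by
    calc _ ≤ C2 * (C3 * 3 * √T) := mul_le_mul_of_nonneg_left (g2.trans g3) hC2.le
      _ = _ := by ring
  nlinarith [Real.sqrt_nonneg T]

end

end Pool.Agent.Y745.HZ
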