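import Pool.Agent.Y745.HZ.Two
import Pool.Agent.Y745.HZ.Sum
import Pool.Agent.Y745.HZ.Nrm
import Pool.Agent.Y745.HZ.Rect
import Pool.Agent.Y745.HZ.Abel
import Pool.Agent.Y745.HZ.Parts
import Pool.Agent.Y745.HZ.RR
import Pool.Agent.Y745.HZ.Gam
import Pool.Agent.Y267.HZ.HOR
import Pool.Agent.Y693.HZ.FAR
import Pool.Agent.Y693.HZ.GS
import Pool.Agent.Y693.HZ.TH

set_option autoImplicit false

/-! Assembly: `G(T) = C0 T + O(T^(3/4))` for the second primitive of Hardy's function. -/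

namespace Pool.Agent.Y745.HZ

open Complex MeasureTheory Filter Topology Set
open Pool.Agent.Helper625

noncomputable section

theorem gz_main (hI : P_IN) (hO : P_OUT) :
    ∃ K : ℝ, ∀ T : ℝ, 1 ≤ T → |M8.Gz T - M8.C0 * T| ≤ K * T ^ (3 / 4 : ℝ) := by
  have h1 := theta_part t_NRM t_RECT hI hO Pool.Agent.Y267.HZ.t_HOR Pool.Agent.Y693.HZ.FAR.t_FAR
    Pool.Agent.Y693.HZ.GS.t_GS Pool.Agent.Y693.HZ.TH.t_TH
  obtain ⟨v, K1, h2⟩ := two_main h1 t_RR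
  obtain ⟨c1, K2, h3⟩ := t_PARTS uu 20 v K1 uu_cont (fun t ht => uu_bound ht) h2
  obtain ⟨κ, c2, K3, h4⟩ := t_GAM
  have h5 : ∀ T : ℝ, 1 ≤ T → |M8.Gz T - (κ * c1 + c2) * T| ≤ (|κ| * K2 + |K3|) * T ^ (3 / 4 : ℝ) := by
    intro T hT
    have hT0 : 0 < T := by linarith
    have e1 := t_GZ T hT0.le
    have e2 := h4 T hT
    have e3 := h3 T hT
    rw [← e1] at e2
    simp only [uu] at e3
    set X := ∫ t in (0:ℝ)..T, (T - t) * (t ^ (1 / 4 : ℝ) * (M1.Lr t * Real.exp (Real.pi / 4 * t))) with hX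
    have e4 : M8.Gz T - (κ * c1 + c2) * T = (M8.Gz T - κ * X - c2 * T) + κ * (X - c1 * T) := by ring
    rw [e4]
    have e5 : √T ≤ T ^ (3 / 4 : ℝ) := by
      rw [Real.sqrt_eq_rpow]
      exact Real.rpow_le_rpow_of_exponent_le hT (by norm_num)
    have e6 : K3 * √T ≤ |K3| * T ^ (3 / 4 : ℝ) :=
      (mul_le_mul_of_nonneg_right (le_abs_self K3) (Real.sqrt_nonneg T)).trans
        (mul_le_mul_of_nonneg_left e5 (abs_nonneg _))
    have e7 : |κ * (X - c1 * T)| ≤ |κ| * (K2 * T ^ (3 / 4 : ℝ)) := by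
      rw [abs_mul]
      exact mul_le_mul_of_nonneg_left e3 (abs_nonneg _)
    have e8 := abs_add_le (M8.Gz T - κ * X - c2 * T) (κ * (X - c1 * T))
    have e9 : (|κ| * K2 + |K3|) * T ^ (3 / 4 : ℝ) = |κ| * (K2 * T ^ (3 / 4 : ℝ)) + |K3| * T ^ (3 / 4 : ℝ) := by ring
    rw [e9]
    linarith
  have h6 := t_ABEL _ _ h5
  rw [h6] at h5
  exact ⟨_, h5⟩

end

end Pool.Agent.Y745.HZ
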