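import Pool.Agent.Y745.HZ.Stm
import Pool.Agent.Helper625.N3

set_option autoImplicit false

/-! The smooth part near the origin. -/

namespace Pool.Agent.Y745.HZ

open Complex MeasureTheory Filter Topology Set
open Pool.Agent.Helper625.N3

noncomputable section

/-- the Laplace kernel on the line `Re P = 1 / T` -/
def LK (T y : ℝ) : ℂ := cexp ((((1 / T : ℝ) : ℂ) + (y : ℂ) * I) * T) * ((((1 / T : ℝ) : ℂ) + (y : ℂ) * I) ^ 2)⁻¹

lemma P_ne {T : ℝ} (hT : 0 < T) (y : ℝ) : ((1 / T : ℝ) : ℂ) + (y : ℂ) * I ≠ 0 := by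
  intro h
  have := congrArg Complex.re h
  simp at this
  linarith

lemma LK_cont {T : ℝ} (hT : 0 < T) : Continuous (LK T) := by
  unfold LK
  apply Continuous.mul (by fun_prop)
  exact Continuous.inv₀ (by fun_prop) (fun y => pow_ne_zero 2 (P_ne hT y))

lemma norm_P_sq (T y : ℝ) : ‖((1 / T : ℝ) : ℂ) + (y : ℂ) * I‖ ^ 2 = (1 / T) ^ 2 + y ^ 2 := by
  rw [← Complex.normSq_eq_norm_sq, Complex.normSq_add_mul_I]

lemma LK_norm {T : ℝ} (hT : 0 < T) (y : ℝ) : ‖LK T y‖ = Real.exp 1 * (1 / ((1 / T) ^ 2 + y ^ 2)) := by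
  unfold LK
  rw [norm_mul, norm_inv, norm_pow, norm_P_sq, ← one_div ((1 / T) ^ 2 + y ^ 2), Complex.norm_exp]
  congr 2
  simp
  field_simp

lemma LK_integrable {T : ℝ} (hT : 0 < T) : Integrable (LK T) := by
  refine ((inv_sq_integ' (σ := 1 / T) (by positivity)).1.const_mul (Real.exp 1)).mono'
    (LK_cont hT).aestronglyMeasurable (Filter.Eventually.of_forall fun y => ?_)
  rw [LK_norm hT]

lemma LK_integral {T : ℝ} (hT : 0 < T) : ∫ y : ℝ, LK T y = 2 * Real.pi * T := by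
  have hσ : 0 < 1 / T := by positivity
  have h1 := kernel hσ T
  have h2 : rf (1 / T) T = ((T * Real.exp (-1) : ℝ) : ℂ) := by
    unfold rf
    rw [max_eq_left hT.le]
    congr 3
    field_simp
  have h3 : ∫ ξ : ℝ, LK T (2 * Real.pi * ξ) = (T : ℂ) := by
    have e1 : ∀ ξ : ℝ, LK T (2 * Real.pi * ξ) = ((Real.exp 1 : ℝ) : ℂ) * (cexp (((2 * Real.pi * ξ * T : ℝ) : ℂ) * I) * (1 / (pt (1 / T) ξ) ^ 2)) := by
      intro ξ
      unfold LK
      have e2 : (((1 / T : ℝ) : ℂ) + ((2 * Real.pi * ξ : ℝ) : ℂ) * I) = pt (1 / T) ξ := by unfold pt; rfl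
      rw [e2, one_div ((pt (1 / T) ξ) ^ 2), ← mul_assoc, Complex.ofReal_exp, ← Complex.exp_add]
      congr 2
      unfold pt
      push_cast
      have : (T : ℂ) ≠ 0 := by exact_mod_cast hT.ne'
      field_simp
    simp only [e1]
    rw [integral_const_mul, ← h1, h2, ← Complex.ofReal_mul]
    congr 1
    have : Real.exp 1 * Real.exp (-1) = 1 := by rw [← Real.exp_add]; simp
    linear_combination T * this
  have h4 := Measure.integral_comp_mul_left (LK T) (2 * Real.pi)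
  rw [h3, abs_of_pos (by positivity)] at h4
  rw [h4, Complex.real_smul]
  push_cast
  have : (Real.pi : ℂ) ≠ 0 := by exact_mod_cast Real.pi_ne_zero
  field_simp

/-- the tail of the kernel -/
lemma tail_bound {T : ℝ} (hT : 1 ≤ T) {F : ℝ → ℂ} {B : ℝ} (hB : 0 ≤ B) (hF : Integrable F)
    (hb : ∀ y : ℝ, 1 ≤ |y| → ‖F y‖ ≤ B * ‖LK T y‖) :
    ‖(∫ y : ℝ, F y) - ∫ y in (-1:ℝ)..1, F y‖ ≤ 2 * Real.pi * Real.exp 1 * B := by
  have hT0 : 0 < T := by linarith
  rw [intervalIntegral.integral_of_le (by norm_num)]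
  have h1 : (∫ y : ℝ, F y) - ∫ y in Ioc (-1:ℝ) 1, F y = ∫ y in (Ioc (-1:ℝ) 1)ᶜ, F y := by
    rw [← integral_add_compl (measurableSet_Ioc (a := (-1:ℝ)) (b := 1)) hF]; ring
  rw [h1]
  have hi : IntegrableOn (fun y : ℝ => 2 * Real.exp 1 * B * (1 + y ^ 2)⁻¹) ((Ioc (-1:ℝ) 1)ᶜ) :=
    (integrable_inv_one_add_sq.const_mul _).integrableOn
  have h2 : ‖∫ y in (Ioc (-1:ℝ) 1)ᶜ, F y‖ ≤ ∫ y in (Ioc (-1:ℝ) 1)ᶜ, 2 * Real.exp 1 * B * (1 + y ^ 2)⁻¹ := by
    refine norm_integral_le_of_norm_le hi ((ae_restrict_iff' measurableSet_Ioc.compl).2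
      (Filter.Eventually.of_forall fun y hy => ?_))
    have hy1 : 1 ≤ |y| := by
      rw [mem_compl_iff, mem_Ioc, not_and_or] at hy
      rcases hy with h | h
      · rw [not_lt] at h
        rw [abs_of_nonpos (by linarith)]; linarith
      · rw [not_le] at h
        rw [abs_of_pos (by linarith)]; exact h.le
    refine (hb y hy1).trans ?_
    rw [LK_norm hT0]
    have hy2 : 1 ≤ y ^ 2 := by rw [← sq_abs]; nlinarith
    have h5 : 1 / ((1 / T) ^ 2 + y ^ 2) ≤ 2 * (1 + y ^ 2)⁻¹ := by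
      rw [← div_eq_mul_inv, div_le_div_iff₀ (by positivity) (by positivity)]
      nlinarith [sq_nonneg (1 / T)]
    calc B * (Real.exp 1 * (1 / ((1 / T) ^ 2 + y ^ 2))) ≤ B * (Real.exp 1 * (2 * (1 + y ^ 2)⁻¹)) := by gcongr
      _ = _ := by ring
  refine h2.trans ?_
  have h3 : ∫ y in (Ioc (-1:ℝ) 1)ᶜ, 2 * Real.exp 1 * B * (1 + y ^ 2)⁻¹ ≤ ∫ y : ℝ, 2 * Real.exp 1 * B * (1 + y ^ 2)⁻¹ := by
    apply setIntegral_le_integral (integrable_inv_one_add_sq.const_mul _)
    exact Filter.Eventually.of_forall fun y => by positivity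
  refine h3.trans (le_of_eq ?_)
  rw [integral_const_mul, integral_univ_inv_one_add_sq]
  ring

theorem t_BP : P_BP := by
  refine ⟨2 * Real.pi * Real.exp 1 + 3 * Real.exp 1, by positivity, fun B M T hT hM hc hB => ?_⟩
  have hT0 : 0 < T := by linarith
  have hpi := Real.pi_pos
  have hpi4 := Real.pi_lt_four
  have hsq : 1 ≤ √T := by
    rw [show (1:ℝ) = √1 by simp]
    exact Real.sqrt_le_sqrt hT
  set p : ℝ → ℂ := fun y => ((1 / T : ℝ) : ℂ) + (y : ℂ) * I with hp
  have hi1 : IntervalIntegrable (fun y => LK T y * (B (p y) - B 0)) volume (-1) 1 := by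
    apply ContinuousOn.intervalIntegrable
    rw [uIcc_of_le (by norm_num)]
    apply ContinuousOn.mul (LK_cont hT0).continuousOn
    apply ContinuousOn.sub _ continuousOn_const
    intro y hy
    apply ContinuousAt.continuousWithinAt
    exact (hc y (abs_le.2 ⟨hy.1, hy.2⟩)).comp (f := p) (by simp only [hp]; fun_prop)
  have hi2 : IntervalIntegrable (fun y => LK T y * B 0) volume (-1) 1 :=
    ((LK_cont hT0).mul continuous_const).intervalIntegrable _ _
  have e0 : (∫ y in (-1 : ℝ)..1, cexp ((((1 / T : ℝ) : ℂ) + (y : ℂ) * I) * T) *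
      ((((1 / T : ℝ) : ℂ) + (y : ℂ) * I) ^ 2)⁻¹ * B (((1 / T : ℝ) : ℂ) + (y : ℂ) * I)) =
      (∫ y in (-1 : ℝ)..1, LK T y * (B (p y) - B 0)) + (∫ y in (-1 : ℝ)..1, LK T y) * B 0 := by
    rw [← intervalIntegral.integral_mul_const, ← intervalIntegral.integral_add hi1 hi2]
    congr 1; ext y
    simp only [LK, hp]; ring
  rw [e0]
  -- first part
  have b1 : ‖∫ y in (-1 : ℝ)..1, LK T y * (B (p y) - B 0)‖ ≤ 3 * Real.exp 1 * M * √T := by
    have hg : IntervalIntegrable (fun y : ℝ => Real.exp 1 * M * (1 / (2 * √T) * (1 / ((1 / T) ^ 2 + y ^ 2)) + √T / 2))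
        volume (-1) 1 := by
      apply Continuous.intervalIntegrable
      apply Continuous.mul continuous_const
      apply Continuous.add _ continuous_const
      apply Continuous.mul continuous_const
      exact continuous_const.div (by fun_prop) (fun y => by positivity)
    have h1 : ‖∫ y in (-1 : ℝ)..1, LK T y * (B (p y) - B 0)‖ ≤
        ∫ y in (-1 : ℝ)..1, Real.exp 1 * M * (1 / (2 * √T) * (1 / ((1 / T) ^ 2 + y ^ 2)) + √T / 2) := by
      apply intervalIntegral.norm_integral_le_of_norm_le (by norm_num) _ hg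
      refine Filter.Eventually.of_forall fun y hy => ?_
      have hy2 : y ^ 2 ≤ 1 := by nlinarith [hy.1, hy.2]
      have hn := norm_P_sq T y
      have hT1 : (1 / T) ^ 2 ≤ 1 := by
        have : 1 / T ≤ 1 := by rw [div_le_iff₀ hT0]; linarith
        have h0 : 0 ≤ 1 / T := by positivity
        nlinarith
      have hpn : ‖p y‖ ≤ 3 / 2 := by
        have : ‖p y‖ ^ 2 ≤ (3/2) ^ 2 := by simp only [hp]; rw [hn]; linarith
        exact le_of_sq_le_sq this (by norm_num) |> fun h => h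
      have hpre : 0 < (p y).re := by simp only [hp]; simp; exact hT0
      have hb := hB (p y) hpre hpn
      rw [norm_mul, LK_norm hT0]
      set q := ‖p y‖ with hq
      have hq0 : 0 < q := norm_pos_iff.2 (P_ne hT0 y)
      have hq2 : (1 / T) ^ 2 + y ^ 2 = q ^ 2 := by rw [hq]; simp only [hp]; exact hn.symm
      rw [hq2]
      have h3 : 1 / q ≤ 1 / (2 * √T) * (1 / q ^ 2) + √T / 2 := by
        have hs0 : 0 < √T := by positivity
        have h4 : 0 ≤ (1 / q - √T) ^ 2 := sq_nonneg _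
        have h5 : 1 / (2 * √T) * (1 / q ^ 2) + √T / 2 - 1 / q = (1 / q - √T) ^ 2 / (2 * √T) := by
          field_simp; ring
        have h6 : 0 ≤ (1 / q - √T) ^ 2 / (2 * √T) := by positivity
        linarith
      calc Real.exp 1 * (1 / q ^ 2) * ‖B (p y) - B 0‖ ≤ Real.exp 1 * (1 / q ^ 2) * (M * q) := by gcongr
        _ = Real.exp 1 * M * (1 / q) := by field_simp
        _ ≤ _ := mul_le_mul_of_nonneg_left h3 (by positivity)
    refine h1.trans ?_
    obtain ⟨j1, j2⟩ := inv_sq_integ' (σ := 1 / T) (by positivity)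
    rw [intervalIntegral.integral_const_mul]
    have h2 : ∫ y in (-1 : ℝ)..1, (1 / (2 * √T) * (1 / ((1 / T) ^ 2 + y ^ 2)) + √T / 2) ≤ 3 * √T := by
      rw [intervalIntegral.integral_add (j1.intervalIntegrable.const_mul _) intervalIntegrable_const,
        intervalIntegral.integral_const_mul, intervalIntegral.integral_const]
      have h3 : ∫ y in (-1 : ℝ)..1, 1 / ((1 / T) ^ 2 + y ^ 2) ≤ Real.pi / (1 / T) := by
        rw [← j2, intervalIntegral.integral_of_le (by norm_num)]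
        apply setIntegral_le_integral j1
        exact Filter.Eventually.of_forall fun y => by positivity
      have hs0 : 0 < √T := by positivity
      have hs2 : √T ^ 2 = T := Real.sq_sqrt hT0.le
      have h4 : 1 / (2 * √T) * ∫ y in (-1 : ℝ)..1, 1 / ((1 / T) ^ 2 + y ^ 2) ≤ 1 / (2 * √T) * (Real.pi / (1 / T)) :=
        mul_le_mul_of_nonneg_left h3 (by positivity)
      have h5 : 1 / (2 * √T) * (Real.pi / (1 / T)) = Real.pi / 2 * √T := by
        field_simp; nlinarith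
      rw [h5] at h4
      simp only [smul_eq_mul]
      nlinarith
    calc Real.exp 1 * M * ∫ y in (-1 : ℝ)..1, (1 / (2 * √T) * (1 / ((1 / T) ^ 2 + y ^ 2)) + √T / 2)
        ≤ Real.exp 1 * M * (3 * √T) := mul_le_mul_of_nonneg_left h2 (by positivity)
      _ = _ := by ring
  -- second part
  have b2 : ‖(∫ y in (-1 : ℝ)..1, LK T y) * B 0 - 2 * Real.pi * T * B 0‖ ≤ 2 * Real.pi * Real.exp 1 * ‖B 0‖ := by
    have h1 := tail_bound hT (F := LK T) (B := 1) zero_le_one (LK_integrable hT0) (fun y _ => by rw [one_mul])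
    rw [LK_integral hT0, mul_one] at h1
    rw [← sub_mul, norm_mul, norm_sub_rev]
    exact mul_le_mul_of_nonneg_right h1 (norm_nonneg _)
  have b3 : ‖B 0‖ ≤ ‖B 0‖ * √T := le_mul_of_one_le_right (norm_nonneg _) hsq
  have he := Real.exp_pos 1
  calc _ = ‖(∫ y in (-1 : ℝ)..1, LK T y * (B (p y) - B 0)) +
        ((∫ y in (-1 : ℝ)..1, LK T y) * B 0 - 2 * Real.pi * T * B 0)‖ := by congr 1; ring
    _ ≤ 3 * Real.exp 1 * M * √T + 2 * Real.pi * Real.exp 1 * ‖B 0‖ := (norm_add_le _ _).trans (add_le_add b1 b2)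
    _ ≤ 3 * Real.exp 1 * M * √T + 2 * Real.pi * Real.exp 1 * (‖B 0‖ * √T) := by gcongr
    _ ≤ _ := by
        have h1 : 0 ≤ 2 * Real.pi * Real.exp 1 * (M * √T) := by positivity
        have h2 : 0 ≤ 3 * Real.exp 1 * (‖B 0‖ * √T) := by positivity
        nlinarith

end

end Pool.Agent.Y745.HZ
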