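import Pool.Agent.Y745.HZ.Stm

set_option autoImplicit false

/-! The bound for one term of the theta series. -/

namespace Pool.Agent.Y745.HZ

open Complex MeasureTheory Filter Topology Set

noncomputable section

lemma rc_even (x y : ℝ) : rc x (-y) = rc x y := by
  unfold rc; rw [Real.sinh_neg, neg_sq]

lemma hh_even (T k x y : ℝ) : hh T k x (-y) = hh T k x y := by
  unfold hh; rw [rc_even, neg_sq]

lemma den_pos {x y : ℝ} (hx : |x| ≤ 1) (h : x ≠ 0 ∨ y ≠ 0) : 0 < Real.sin x ^ 2 + Real.sinh y ^ 2 := by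
  have h1 := abs_le.1 hx
  rcases h with h | h
  · have : Real.sin x ≠ 0 := by
      rcases lt_or_gt_of_ne h with h2 | h2
      · exact (Real.sin_neg_of_neg_of_neg_pi_lt h2 (by linarith [Real.pi_gt_three])).ne
      · exact (Real.sin_pos_of_pos_of_lt_pi h2 (by linarith [Real.pi_gt_three])).ne'
    positivity
  · have : Real.sinh y ≠ 0 := fun h2 => h (Real.sinh_eq_zero.1 h2)
    positivity

lemma hh_cont (T k : ℝ) {x y : ℝ} (hx : |x| ≤ 1) (h : x ≠ 0 ∨ y ≠ 0) :
    ContinuousAt (fun q : ℝ × ℝ => hh T k q.1 q.2) (x, y) := by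
  have hd := den_pos hx h
  have hs : 0 < x ^ 2 + y ^ 2 := by
    rcases h with h | h
    · positivity
    · positivity
  unfold hh rc
  apply ContinuousAt.mul
  · apply ContinuousAt.rpow_const (by fun_prop)
    left; exact hs.ne'
  · apply Real.continuous_exp.continuousAt.comp
    apply ContinuousAt.sub (by fun_prop)
    apply ContinuousAt.mul (by fun_prop)
    apply ContinuousAt.div (by fun_prop) (by fun_prop)
    exact hd.ne'

lemma hh_int_y (T k : ℝ) {x a b : ℝ} (hx : |x| ≤ 1) (h : ∀ y ∈ uIcc a b, x ≠ 0 ∨ y ≠ 0) :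
    IntervalIntegrable (fun y => hh T k x y) volume a b := by
  apply ContinuousOn.intervalIntegrable
  intro y hy
  apply ContinuousAt.continuousWithinAt
  exact (hh_cont T k hx (h y hy)).comp (f := fun y : ℝ => (x, y)) (by fun_prop)

lemma hh_int_x (T k : ℝ) {y a b : ℝ} (ha : |a| ≤ 1) (hb : |b| ≤ 1) (hy : y ≠ 0) :
    IntervalIntegrable (fun x => hh T k x y) volume a b := by
  apply ContinuousOn.intervalIntegrable
  intro x hx
  have hx1 : |x| ≤ 1 := by
    rw [abs_le] at *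
    rcases mem_uIcc.1 hx with h | h
    · exact ⟨by linarith [h.1, ha.1], by linarith [h.2, hb.2]⟩
    · exact ⟨by linarith [h.1, hb.1], by linarith [h.2, ha.2]⟩
  apply ContinuousAt.continuousWithinAt
  exact (hh_cont T k hx1 (Or.inr hy)).comp (f := fun x : ℝ => (x, y)) (by fun_prop)

lemma ff_int_y (hN : P_NRM) (T k : ℝ) {x a b : ℝ} (hx : |x| ≤ 1) (ha : |a| ≤ 1) (hb : |b| ≤ 1)
    (h : ∀ y ∈ uIcc a b, 0 < x ∨ y ≠ 0) :
    IntervalIntegrable (fun y : ℝ => ff T k ((x : ℂ) + (y : ℂ) * I)) volume a b := by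
  apply ContinuousOn.intervalIntegrable
  intro y hy
  have hy1 : |y| ≤ 1 := by
    rw [abs_le] at *
    rcases mem_uIcc.1 hy with h | h
    · exact ⟨by linarith [h.1, ha.1], by linarith [h.2, hb.2]⟩
    · exact ⟨by linarith [h.1, hb.1], by linarith [h.2, ha.2]⟩
  apply ContinuousAt.continuousWithinAt
  exact (hN T k x y hx hy1 (h y hy)).1.continuousAt.comp (f := fun y : ℝ => ((x : ℂ) + (y : ℂ) * I)) (by fun_prop)

lemma ff_int_x (hN : P_NRM) (T k : ℝ) {y a b : ℝ} (hy : |y| ≤ 1) (ha : |a| ≤ 1) (hb : |b| ≤ 1)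
    (h : y ≠ 0) :
    IntervalIntegrable (fun x : ℝ => ff T k ((x : ℂ) + (y : ℂ) * I)) volume a b := by
  apply ContinuousOn.intervalIntegrable
  intro x hx
  have hx1 : |x| ≤ 1 := by
    rw [abs_le] at *
    rcases mem_uIcc.1 hx with h | h
    · exact ⟨by linarith [h.1, ha.1], by linarith [h.2, hb.2]⟩
    · exact ⟨by linarith [h.1, hb.1], by linarith [h.2, ha.2]⟩
  apply ContinuousAt.continuousWithinAt
  exact (hN T k x y hx1 hy (Or.inr h)).1.continuousAt.comp (f := fun x : ℝ => ((x : ℂ) + (y : ℂ) * I)) (by fun_prop)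

/-- one term, small parameter -/
lemma term_near (hN : P_NRM) (hR : P_RECT) (hI : P_IN) (hO : P_OUT) (hH : P_HOR) :
    ∃ C : ℝ, 0 < C ∧ ∀ T k : ℝ, 10000 ≤ T → 1 / 3 ≤ k → k ≤ Real.sinh 1 ^ 2 * T →
      ‖∫ y in (-1 : ℝ)..1, ff T k (((1 / T : ℝ) : ℂ) + (y : ℂ) * I)‖ ≤ C * (√T / k) := by
  obtain ⟨C1, hC1, h1⟩ := hI
  obtain ⟨C2, hC2, h2⟩ := hO
  obtain ⟨C3, hC3, h3⟩ := hH
  refine ⟨C1 + 2 * C2 + 2 * C3 + 2 * C3, by positivity, fun T k hT hk hk2 => ?_⟩
  have hT0 : 0 < T := by linarith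
  have hk0 : 0 < k := by linarith
  set r := √(k / T) with hr
  set w := √(r / T) with hw
  set ρ := Real.arsinh r with hρ
  have hr0 : 0 < r := Real.sqrt_pos.2 (by positivity)
  have hs1 : 0 < Real.sinh 1 := Real.sinh_pos_iff.2 one_pos
  have hs2 : Real.sinh 1 ≤ 2 := by
    rw [Real.sinh_eq]
    have := Real.exp_one_lt_d9
    have := Real.exp_pos (-1)
    linarith
  have hr1 : r ≤ Real.sinh 1 := by
    rw [hr]
    apply Real.sqrt_le_iff.2
    refine ⟨hs1.le, ?_⟩
    rw [div_le_iff₀ hT0]; exact hk2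
  have hρ0 : 0 < ρ := Real.arsinh_pos_iff.2 hr0
  have hρ1 : ρ ≤ 1 := by
    have := Real.arsinh_le_arsinh.2 hr1
    rwa [Real.arsinh_sinh] at this
  have hrT : 1 ≤ r * T := by
    have h5 : (1 / T) ^ 2 ≤ k / T := by
      rw [div_pow, one_pow, div_le_div_iff₀ (by positivity) hT0]
      nlinarith
    have h6 : 1 / T ≤ r := by
      rw [hr]
      exact Real.le_sqrt_of_sq_le h5
    rw [div_le_iff₀ hT0] at h6
    exact h6
  have hwa : 1 / T ≤ w := by
    rw [hw]
    apply Real.le_sqrt_of_sq_le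
    rw [div_pow, one_pow, div_le_div_iff₀ (by positivity) hT0]
    nlinarith
  have hw1 : w ≤ 1 := by
    rw [hw]
    apply Real.sqrt_le_iff.2
    refine ⟨zero_le_one, ?_⟩
    rw [div_le_iff₀ hT0]
    linarith
  have ha0 : 0 < 1 / T := by positivity
  have hw0 : 0 < w := lt_of_lt_of_le ha0 hwa
  have hwabs : |w| ≤ 1 := by rw [abs_of_pos hw0]; exact hw1
  have hwabs2 : |(-w)| ≤ 1 := by rw [abs_neg]; exact hwabs
  have hρabs : |ρ| ≤ 1 := by rw [abs_of_pos hρ0]; exact hρ1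
  have hρabs2 : |(-ρ)| ≤ 1 := by rw [abs_neg]; exact hρabs
  have haabs : |1 / T| ≤ 1 := by rw [abs_of_pos ha0]; linarith
  have hone : |(1:ℝ)| ≤ 1 := by simp
  have hmone : |(-1:ℝ)| ≤ 1 := by simp
  have hmain := hR (ff T k) (1 / T) w ρ ha0 hwa hw1 hρ0 hρ1 (fun x y hx hy h => (hN T k x y hx hy h).1)
  refine hmain.trans ?_
  -- first piece
  have e1 : (∫ y in (-ρ)..ρ, ‖ff T k ((w : ℂ) + (y : ℂ) * I)‖) ≤ C1 * (√T / k) := by
    refine le_trans ?_ (h1 T k r w ρ hT hk hk2 rfl rfl rfl)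
    apply intervalIntegral.integral_mono_on (by linarith)
    · exact (ff_int_y hN T k hwabs hρabs2 hρabs (fun _ _ => Or.inl hw0)).norm
    · exact hh_int_y T k hwabs (fun _ _ => Or.inl hw0.ne')
    · intro y hy
      exact (hN T k w y hwabs (abs_le.2 ⟨by linarith [hy.1], by linarith [hy.2]⟩) (Or.inl hw0)).2
  have e2 : (∫ y in ρ..1, (‖ff T k (((-w : ℝ) : ℂ) + (y : ℂ) * I)‖ +
      ‖ff T k (((-w : ℝ) : ℂ) + ((-y : ℝ) : ℂ) * I)‖)) ≤ 2 * (C2 * (√T / k)) := by
    refine le_trans ?_ (mul_le_mul_of_nonneg_left (h2 T k r w ρ hT hk hk2 rfl rfl rfl) (by norm_num))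
    rw [← intervalIntegral.integral_const_mul]
    have hne : ∀ y ∈ uIcc ρ 1, y ≠ 0 := by
      intro y hy
      rw [uIcc_of_le hρ1] at hy
      linarith [hy.1]
    apply intervalIntegral.integral_mono_on hρ1
    · apply IntervalIntegrable.add
      · exact (ff_int_y hN T k hwabs2 hρabs hone (fun y hy => Or.inr (hne y hy))).norm
      · have hc := (ff_int_y hN T k (x := -w) (a := -ρ) (b := -1) hwabs2 hρabs2 hmone (fun y hy => by
          right
          rw [uIcc_of_ge (by linarith)] at hy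
          have := hy.2
          intro h; rw [h] at this; linarith)).norm
        have h4 := (IntervalIntegrable.comp_mul_left_iff (f := fun y : ℝ => ‖ff T k (((-w : ℝ) : ℂ) + (y : ℂ) * I)‖)
          (a := -ρ) (b := -1) (c := -1) (by norm_num)).2 (by simpa using hc)
        simpa using h4
    · exact (hh_int_y T k hwabs2 (fun y hy => Or.inr (hne y hy))).const_mul 2
    · intro y hy
      have hy0 : y ≠ 0 := by linarith [hy.1]
      have hy1 : |y| ≤ 1 := abs_le.2 ⟨by linarith [hy.1], hy.2⟩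
      have a1 := (hN T k (-w) y hwabs2 hy1 (Or.inr hy0)).2
      have a2 := (hN T k (-w) (-y) hwabs2 (by rwa [abs_neg]) (Or.inr (neg_ne_zero.2 hy0))).2
      rw [hh_even] at a2
      linarith
  have e3 : (∫ x in (-w)..w, (‖ff T k ((x : ℂ) + (ρ : ℂ) * I)‖ + ‖ff T k ((x : ℂ) + ((-ρ : ℝ) : ℂ) * I)‖)) ≤
      2 * (C3 * (√T / k)) := by
    refine le_trans ?_ (mul_le_mul_of_nonneg_left (h3 T k r w ρ hT hk hk2 rfl rfl rfl).1 (by norm_num))
    rw [← intervalIntegral.integral_const_mul]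
    apply intervalIntegral.integral_mono_on (by linarith)
    · exact (ff_int_x hN T k hρabs hwabs2 hwabs hρ0.ne').norm.add
        (ff_int_x hN T k hρabs2 hwabs2 hwabs (neg_ne_zero.2 hρ0.ne')).norm
    · exact (hh_int_x T k hwabs2 hwabs hρ0.ne').const_mul 2
    · intro x hx
      have hx1 : |x| ≤ 1 := abs_le.2 ⟨by linarith [hx.1], by linarith [hx.2]⟩
      have a1 := (hN T k x ρ hx1 hρabs (Or.inr hρ0.ne')).2
      have a2 := (hN T k x (-ρ) hx1 hρabs2 (Or.inr (neg_ne_zero.2 hρ0.ne'))).2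
      rw [hh_even] at a2
      linarith
  have e4 : (∫ x in (-w)..(1 / T), (‖ff T k ((x : ℂ) + ((1 : ℝ) : ℂ) * I)‖ +
      ‖ff T k ((x : ℂ) + ((-1 : ℝ) : ℂ) * I)‖)) ≤ 2 * (C3 * (√T / k)) := by
    refine le_trans ?_ (mul_le_mul_of_nonneg_left (h3 T k r w ρ hT hk hk2 rfl rfl rfl).2 (by norm_num))
    rw [← intervalIntegral.integral_const_mul]
    apply intervalIntegral.integral_mono_on (by linarith)
    · exact (ff_int_x hN T k hone hwabs2 haabs one_ne_zero).norm.add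
        (ff_int_x hN T k hmone hwabs2 haabs (by norm_num)).norm
    · exact (hh_int_x T k hwabs2 haabs one_ne_zero).const_mul 2
    · intro x hx
      have hx1 : |x| ≤ 1 := abs_le.2 ⟨by linarith [hx.1], by linarith [hx.2, (abs_le.1 haabs).2]⟩
      have a1 := (hN T k x 1 hx1 hone (Or.inr one_ne_zero)).2
      have a2 := (hN T k x (-1) hx1 hmone (Or.inr (by norm_num))).2
      rw [hh_even] at a2
      linarith
  linarith

/-- one term, large parameter -/
lemma term_far (hN : P_NRM) (hF : P_FAR) :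
    ∃ C : ℝ, 0 < C ∧ ∀ T k : ℝ, 10000 ≤ T → Real.sinh 1 ^ 2 * T ≤ k →
      ‖∫ y in (-1 : ℝ)..1, ff T k (((1 / T : ℝ) : ℂ) + (y : ℂ) * I)‖ ≤ C * Real.exp (-(k / (10 * T))) := by
  obtain ⟨C, hC, h⟩ := hF
  refine ⟨C, hC, fun T k hT hk => ?_⟩
  have hT0 : 0 < T := by linarith
  have ha0 : 0 < 1 / T := by positivity
  have haabs : |1 / T| ≤ 1 := by
    rw [abs_of_pos ha0, div_le_iff₀ hT0]; linarith
  refine le_trans ?_ (h T k hT hk)
  refine (intervalIntegral.norm_integral_le_integral_norm (by norm_num)).trans ?_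
  apply intervalIntegral.integral_mono_on (by norm_num)
  · exact (ff_int_y hN T k haabs (by simp) (by simp) (fun _ _ => Or.inl ha0)).norm
  · exact hh_int_y T k haabs (fun _ _ => Or.inl ha0.ne')
  · intro y hy
    exact (hN T k (1 / T) y haabs (abs_le.2 ⟨hy.1, hy.2⟩) (Or.inl ha0)).2

end

end Pool.Agent.Y745.HZ
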