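import Mathlib

set_option autoImplicit false

/-! Statements (Mathlib only) for the asymptotic formula `G(T) = C T + O(T^(3/4))` for the second primitive of
Hardy's function. -/

namespace Pool.Agent.Y745.HZ

open Complex MeasureTheory Filter Topology Set

noncomputable section

/-- real part of the cotangent of `x + i y` -/
def rc (x y : ℝ) : ℝ := Real.sin x * Real.cos x / (Real.sin x ^ 2 + Real.sinh y ^ 2)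

/-- majorant of the integrand -/
def hh (T k x y : ℝ) : ℝ := (x ^ 2 + y ^ 2) ^ (-(5 / 4) : ℝ) * Real.exp (x * T - k * rc x y)

/-- the integrand with parameter `k` -/
def ff (T k : ℝ) (P : ℂ) : ℂ :=
  cexp (P * T) * (P ^ 2)⁻¹ *
    ((2 * Complex.sin P) ^ (-(1 / 2) : ℂ) * cexp (-(k : ℂ) * (Complex.cos P / Complex.sin P)))

/-- differentiability and size of the integrand -/
def P_NRM : Prop := ∀ T k x y : ℝ, |x| ≤ 1 → |y| ≤ 1 → (0 < x ∨ y ≠ 0) →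
  DifferentiableAt ℂ (ff T k) ((x : ℂ) + (y : ℂ) * I) ∧ ‖ff T k ((x : ℂ) + (y : ℂ) * I)‖ ≤ hh T k x y

/-- change of the path of integration -/
def P_RECT : Prop := ∀ (f : ℂ → ℂ) (a w ρ : ℝ), 0 < a → a ≤ w → w ≤ 1 → 0 < ρ → ρ ≤ 1 →
  (∀ x y : ℝ, |x| ≤ 1 → |y| ≤ 1 → (0 < x ∨ y ≠ 0) → DifferentiableAt ℂ f ((x : ℂ) + (y : ℂ) * I)) →
  ‖∫ y in (-1 : ℝ)..1, f ((a : ℂ) + (y : ℂ) * I)‖ ≤
    (∫ y in (-ρ)..ρ, ‖f ((w : ℂ) + (y : ℂ) * I)‖) +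
    (∫ y in ρ..1, (‖f (((-w : ℝ) : ℂ) + (y : ℂ) * I)‖ + ‖f (((-w : ℝ) : ℂ) + ((-y : ℝ) : ℂ) * I)‖)) +
    (∫ x in (-w)..w, (‖f ((x : ℂ) + (ρ : ℂ) * I)‖ + ‖f ((x : ℂ) + ((-ρ : ℝ) : ℂ) * I)‖)) +
    (∫ x in (-w)..a, (‖f ((x : ℂ) + ((1 : ℝ) : ℂ) * I)‖ + ‖f ((x : ℂ) + ((-1 : ℝ) : ℂ) * I)‖))

/-- the part of the new path inside the saddle points -/
def P_IN : Prop := ∃ C : ℝ, 0 < C ∧ ∀ T k r w ρ : ℝ, 10000 ≤ T → 1 / 3 ≤ k → k ≤ Real.sinh 1 ^ 2 * T →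
  r = √(k / T) → w = √(r / T) → ρ = Real.arsinh r →
  (∫ y in (-ρ)..ρ, hh T k w y) ≤ C * (√T / k)

/-- the part of the new path outside the saddle points -/
def P_OUT : Prop := ∃ C : ℝ, 0 < C ∧ ∀ T k r w ρ : ℝ, 10000 ≤ T → 1 / 3 ≤ k → k ≤ Real.sinh 1 ^ 2 * T →
  r = √(k / T) → w = √(r / T) → ρ = Real.arsinh r →
  (∫ y in ρ..1, hh T k (-w) y) ≤ C * (√T / k)

/-- the horizontal parts of the new path -/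
def P_HOR : Prop := ∃ C : ℝ, 0 < C ∧ ∀ T k r w ρ : ℝ, 10000 ≤ T → 1 / 3 ≤ k → k ≤ Real.sinh 1 ^ 2 * T →
  r = √(k / T) → w = √(r / T) → ρ = Real.arsinh r →
  (∫ x in (-w)..w, hh T k x ρ) ≤ C * (√T / k) ∧ (∫ x in (-w)..(1 / T), hh T k x 1) ≤ C * (√T / k)

/-- large parameters -/
def P_FAR : Prop := ∃ C : ℝ, 0 < C ∧ ∀ T k : ℝ, 10000 ≤ T → Real.sinh 1 ^ 2 * T ≤ k →
  (∫ y in (-1 : ℝ)..1, hh T k (1 / T) y) ≤ C * Real.exp (-(k / (10 * T)))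

/-- a Gaussian sum -/
def P_GS : Prop := ∃ C : ℝ, 0 < C ∧ ∀ v : ℝ, 0 < v → v ≤ 1 →
  Summable (fun n : ℤ => Real.exp (-(v * ((n : ℝ) - 1 / 2) ^ 2))) ∧
    ∑' n : ℤ, Real.exp (-(v * ((n : ℝ) - 1 / 2) ^ 2)) ≤ C / √v

/-- the theta function near the cusp -/
def P_TH : Prop := ∃ c : ℤ → ℂ, (∀ n, ‖c n‖ = 1) ∧ ∀ P : ℂ, 0 < P.re → P.re < Real.pi / 2 →
  HasSum (fun n : ℤ => c n * ((2 * Complex.sin P) ^ (-(1 / 2) : ℂ) *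
      cexp (-(((Real.pi / 2 * ((n : ℝ) - 1 / 2) ^ 2 : ℝ)) : ℂ) * (Complex.cos P / Complex.sin P))))
    (cexp ((I * (((Real.pi / 4 : ℝ) : ℂ) - P)) / 2) *
      jacobiTheta₂ 0 (I * cexp (2 * (I * (((Real.pi / 4 : ℝ) : ℂ) - P)))))

/-- the smooth part near the origin -/
def P_BP : Prop := ∃ C : ℝ, 0 < C ∧ ∀ (B : ℂ → ℂ) (M T : ℝ), 1 ≤ T → 0 ≤ M →
  (∀ y : ℝ, |y| ≤ 1 → ContinuousAt B (((1 / T : ℝ) : ℂ) + (y : ℂ) * I)) →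
  (∀ P : ℂ, 0 < P.re → ‖P‖ ≤ 3 / 2 → ‖B P - B 0‖ ≤ M * ‖P‖) →
  ‖(∫ y in (-1 : ℝ)..1, cexp ((((1 / T : ℝ) : ℂ) + (y : ℂ) * I) * T) *
      ((((1 / T : ℝ) : ℂ) + (y : ℂ) * I) ^ 2)⁻¹ * B (((1 / T : ℝ) : ℂ) + (y : ℂ) * I)) -
      2 * Real.pi * T * B 0‖ ≤ C * (M + ‖B 0‖) * √T

/-- integration by parts against `t ^ (1/4)` -/
def P_PARTS : Prop := ∀ (D : ℝ → ℝ) (A v K : ℝ), Continuous D → (∀ t, 0 ≤ t → |D t| ≤ A * (1 + t)) →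
  (∀ T, 1 ≤ T → |(∫ t in (0:ℝ)..T, (T - t) * D t) - v * T| ≤ K * √T) →
  ∃ c K' : ℝ, ∀ T, 1 ≤ T →
    |(∫ t in (0:ℝ)..T, (T - t) * (t ^ (1 / 4 : ℝ) * D t)) - c * T| ≤ K' * T ^ (3 / 4 : ℝ)

end

end Pool.Agent.Y745.HZ
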