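import Pool.Agent.Helper625.N6
import Pool.Agent.Helper625.M8

set_option autoImplicit false

/-! Statements with the library of `Helper625` for the second primitive of Hardy's function. -/

namespace Pool.Agent.Y745.HZ

open Complex MeasureTheory Filter Topology Set
open Pool.Agent.Helper625

noncomputable section

/-- sharp trivial bound for the two-sided transform of the completed zeta function -/
def P_RR : Prop := ∃ C : ℝ, 0 < C ∧ ∀ w ∈ Th.S, ‖Th.R w‖ ≤ C * (Real.pi / 4 - |w.im|) ^ (-(1 / 2) : ℝ)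

/-- replacing the Gamma factor of Hardy's function by a power -/
def P_GAM : Prop := ∃ κ c K : ℝ, ∀ T : ℝ, 1 ≤ T →
  |(∫ t in (0:ℝ)..T, (T - t) * M8.Zr t) -
      κ * (∫ t in (0:ℝ)..T, (T - t) * (t ^ (1 / 4 : ℝ) * (M1.Lr t * Real.exp (Real.pi / 4 * t)))) - c * T| ≤ K * √T

/-- identification of the constant -/
def P_ABEL : Prop := ∀ c K : ℝ, (∀ T : ℝ, 1 ≤ T → |M8.Gz T - c * T| ≤ K * T ^ (3 / 4 : ℝ)) → c = M8.C0

/-- second primitive as a weighted integral -/
def P_GZ : Prop := ∀ T : ℝ, 0 ≤ T → M8.Gz T = ∫ t in (0:ℝ)..T, (T - t) * M8.Zr t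

end

end Pool.Agent.Y745.HZ
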