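import Pool.Agent.Y745.HZ.StmB
import Pool.Agent.Y745.HZ.Sum
import Pool.Agent.Y745.HZ.BP

set_option autoImplicit false

/-! The second primitive of `Λ(1/2 + i t) exp (π t / 4)`. -/

namespace Pool.Agent.Y745.HZ

open Complex MeasureTheory Filter Topology Set
open Pool.Agent.Helper625 Pool.Agent.Helper625.Th Pool.Agent.Helper625.N3 Pool.Agent.Helper625.M1

noncomputable section

/-- the function to be integrated -/
def uu (t : ℝ) : ℝ := Lr t * Real.exp (Real.pi / 4 * t)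

lemma uu_cont : Continuous uu := Lr_cont.mul (by fun_prop)

/-- the one-sided remainder -/
def A1 (P : ℂ) : ℂ := ∫ t in Ioi (0:ℝ), (Lr t : ℂ) * cexp (-((((Real.pi / 4 : ℝ)) : ℂ) - P) * t)

/-- the point of the strip -/
def ww (P : ℂ) : ℂ := I * (((Real.pi / 4 : ℝ) : ℂ) - P)

lemma ww_im (P : ℂ) : (ww P).im = Real.pi / 4 - P.re := by
  unfold ww; simp

lemma ww_mem {P : ℂ} (h0 : 0 < P.re) (h1 : P.re < Real.pi / 2) : ww P ∈ S := by
  show |(ww P).im| < Real.pi / 4
  rw [ww_im, abs_lt]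
  constructor <;> linarith

lemma uu_bound {t : ℝ} (ht : 0 ≤ t) : |uu t| ≤ 20 * (1 + t) := by
  unfold uu
  have h := abs_Lr_le t
  rw [abs_of_nonneg ht] at h
  rw [abs_mul, abs_of_pos (Real.exp_pos _)]
  calc |Lr t| * Real.exp (Real.pi / 4 * t) ≤ 20 * (1 + t) * Real.exp (-(Real.pi / 4) * t) * Real.exp (Real.pi / 4 * t) :=
        mul_le_mul_of_nonneg_right h (Real.exp_pos _).le
    _ = 20 * (1 + t) := by
        rw [mul_assoc, ← Real.exp_add]
        have : -(Real.pi / 4) * t + Real.pi / 4 * t = 0 := by ring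
        rw [this, Real.exp_zero, mul_one]

lemma two_integrable {P : ℂ} (h0 : 0 < P.re) (h1 : P.re < Real.pi / 2) :
    Integrable (fun t : ℝ => Lc t * cexp (-I * t * ww P)) := by
  have hw : |(ww P).im| < Real.pi / 4 := ww_mem h0 h1
  have hc : 0 < Real.pi / 4 - |(ww P).im| := by linarith
  refine ((poly_exp_integrable _ hc).const_mul 20).mono ?_ ?_
  · exact (Lc_cont.mul (by fun_prop)).aestronglyMeasurable
  · filter_upwards with t
    rw [norm_mul, Real.norm_of_nonneg (by positivity)]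
    have h2 := norm_Lc_le t
    have h3 := norm_cexp_le t (ww P) _ le_rfl
    have e : Real.exp (-(Real.pi / 4 - |(ww P).im|) * |t|) = Real.exp (-(Real.pi / 4) * |t|) * Real.exp (|(ww P).im| * |t|) := by
      rw [← Real.exp_add]; congr 1; ring
    rw [e]
    have h4 : 0 ≤ |t| := abs_nonneg t
    calc ‖Lc t‖ * ‖cexp (-I * t * ww P)‖ ≤ (20 * (1 + |t|) * Real.exp (-(Real.pi / 4) * |t|)) * Real.exp (|(ww P).im| * |t|) :=
          mul_le_mul h2 h3 (norm_nonneg _) (by positivity)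
      _ = 20 * ((1 + |t|) * (Real.exp (-(Real.pi / 4) * |t|) * Real.exp (|(ww P).im| * |t|))) := by ring
      _ ≤ 20 * ((1 + |t|) ^ 2 * (Real.exp (-(Real.pi / 4) * |t|) * Real.exp (|(ww P).im| * |t|))) := by
          have h5 : 1 + |t| ≤ (1 + |t|) ^ 2 := by nlinarith
          gcongr

lemma two_sided {P : ℂ} (h0 : 0 < P.re) (h1 : P.re < Real.pi / 2) : R (ww P) = Ut uu P + A1 P := by
  have hi := two_integrable h0 h1
  unfold R
  rw [← intervalIntegral.integral_Iic_add_Ioi (b := 0) hi.integrableOn hi.integrableOn, add_comm]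
  congr 1
  · unfold Ut
    apply setIntegral_congr_fun measurableSet_Ioi
    intro t _
    simp only [uu, ww]
    rw [Lc_real]
    push_cast
    rw [mul_assoc (Lr t : ℂ), ← Complex.exp_add]
    congr 2
    linear_combination (-(t : ℂ) * (Real.pi / 4 - P)) * I_mul_I
  · have h2 := integral_comp_neg_Iic (0:ℝ) (fun t : ℝ => Lc (-t) * cexp (-I * ((-t : ℝ) : ℂ) * ww P))
    simp only [neg_neg, neg_zero] at h2
    rw [h2]
    unfold A1
    apply setIntegral_congr_fun measurableSet_Ioi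
    intro t _
    simp only [ww]
    rw [Lc_neg, Lc_real]
    congr 2
    push_cast
    linear_combination ((t : ℂ) * (Real.pi / 4 - P)) * I_mul_I

/-- majorant for the one-sided integrals -/
def gm (t : ℝ) : ℝ := 20 * ((1 + |t|) ^ 2 * Real.exp (-(Real.pi / 2 - 3 / 2) * |t|))

lemma gm_int : Integrable gm := (poly_exp_integrable _ (by linarith [Real.pi_gt_d2])).const_mul 20

lemma gm_nonneg (t : ℝ) : 0 ≤ gm t := by unfold gm; positivity

lemma A1_term {P : ℂ} (hP : P.re ≤ 3 / 2) {t : ℝ} (ht : 0 < t) :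
    ‖(Lr t : ℂ) * cexp (-((((Real.pi / 4 : ℝ)) : ℂ) - P) * t)‖ ≤ gm t := by
  rw [norm_mul, Complex.norm_real, Real.norm_eq_abs, Complex.norm_exp]
  have e1 : (-((((Real.pi / 4 : ℝ)) : ℂ) - P) * (t : ℂ)).re = (P.re - Real.pi / 4) * t := by
    rw [mul_re, ofReal_re, ofReal_im, mul_zero, sub_zero, neg_re, sub_re, ofReal_re]; ring
  rw [e1]
  have h := abs_Lr_le t
  unfold gm
  rw [abs_of_pos ht] at h ⊢
  have h2 : Real.exp ((P.re - Real.pi / 4) * t) ≤ Real.exp ((3 / 2 - Real.pi / 4) * t) :=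
    Real.exp_le_exp.2 (mul_le_mul_of_nonneg_right (by linarith) ht.le)
  calc |Lr t| * Real.exp ((P.re - Real.pi / 4) * t) ≤
        (20 * (1 + t) * Real.exp (-(Real.pi / 4) * t)) * Real.exp ((3 / 2 - Real.pi / 4) * t) :=
        mul_le_mul h h2 (Real.exp_pos _).le (by positivity)
    _ = 20 * ((1 + t) * Real.exp (-(Real.pi / 2 - 3 / 2) * t)) := by
        rw [mul_assoc (20 * (1 + t)), ← Real.exp_add]; ring_nf
    _ ≤ _ := by
        have h5 : 1 + t ≤ (1 + t) ^ 2 := by nlinarith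
        gcongr

lemma A1_meas (P : ℂ) : AEStronglyMeasurable (fun t : ℝ => (Lr t : ℂ) * cexp (-((((Real.pi / 4 : ℝ)) : ℂ) - P) * t))
    (volume.restrict (Ioi (0:ℝ))) :=
  ((Complex.continuous_ofReal.comp Lr_cont).mul (by fun_prop)).aestronglyMeasurable

def M1c : ℝ := ∫ t in Ioi (0:ℝ), gm t

lemma A1_norm {P : ℂ} (hP : P.re ≤ 3 / 2) : ‖A1 P‖ ≤ M1c :=
  norm_integral_le_of_norm_le gm_int.integrableOn ((ae_restrict_iff' measurableSet_Ioi).2
    (Filter.Eventually.of_forall fun _ ht => A1_term hP ht))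

lemma M1c_nonneg : 0 ≤ M1c := setIntegral_nonneg measurableSet_Ioi fun t _ => gm_nonneg t

lemma A1_int {P : ℂ} (hP : P.re ≤ 3 / 2) :
    IntegrableOn (fun t : ℝ => (Lr t : ℂ) * cexp (-((((Real.pi / 4 : ℝ)) : ℂ) - P) * t)) (Ioi 0) :=
  Integrable.mono' gm_int.integrableOn (A1_meas P) ((ae_restrict_iff' measurableSet_Ioi).2
    (Filter.Eventually.of_forall fun _ ht => A1_term hP ht))

lemma A1_cont {P : ℂ} (hP : P.re < 3 / 2) : ContinuousAt A1 P := by
  unfold A1
  apply continuousAt_of_dominated (bound := gm)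
  · exact Filter.Eventually.of_forall fun Q => A1_meas Q
  · have : {Q : ℂ | Q.re < 3 / 2} ∈ 𝓝 P := (isOpen_lt Complex.continuous_re continuous_const).mem_nhds hP
    filter_upwards [this] with Q hQ
    exact (ae_restrict_iff' measurableSet_Ioi).2 (Filter.Eventually.of_forall fun _ ht => A1_term (le_of_lt hQ) ht)
  · exact gm_int.integrableOn
  · exact Filter.Eventually.of_forall fun t => by fun_prop

lemma exp_sub_one (z : ℂ) : ‖cexp z - 1‖ ≤ ‖z‖ * Real.exp ‖z‖ := by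
  have := Complex.norm_exp_sub_sum_le_norm_mul_exp z 1
  simpa using this

lemma A1_lip {P : ℂ} (hP : ‖P‖ ≤ 3 / 2) : ‖A1 P - A1 0‖ ≤ M1c * ‖P‖ := by
  have hre : P.re ≤ 3 / 2 := (Complex.re_le_norm P).trans hP
  unfold A1 M1c
  rw [← integral_sub (A1_int hre) (A1_int (P := 0) (by norm_num)), ← integral_mul_const]
  refine norm_integral_le_of_norm_le (gm_int.integrableOn.mul_const _) ((ae_restrict_iff' measurableSet_Ioi).2
    (Filter.Eventually.of_forall fun t ht => ?_))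
  have ht0 : (0:ℝ) < t := ht
  have e1 : (Lr t : ℂ) * cexp (-((((Real.pi / 4 : ℝ)) : ℂ) - P) * t) - (Lr t : ℂ) * cexp (-((((Real.pi / 4 : ℝ)) : ℂ) - 0) * t)
      = (Lr t : ℂ) * cexp (((-(Real.pi / 4) * t : ℝ)) : ℂ) * (cexp (P * t) - 1) := by
    have e2 : cexp (-((((Real.pi / 4 : ℝ)) : ℂ) - P) * t) = cexp (((-(Real.pi / 4) * t : ℝ)) : ℂ) * cexp (P * t) := by
      rw [← Complex.exp_add]; congr 1; push_cast; ring
    have e3 : cexp (-((((Real.pi / 4 : ℝ)) : ℂ) - 0) * t) = cexp (((-(Real.pi / 4) * t : ℝ)) : ℂ) := by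
      congr 1; push_cast; ring
    rw [e2, e3]; ring
  rw [e1, norm_mul, norm_mul, Complex.norm_real, Real.norm_eq_abs, Complex.norm_exp, Complex.ofReal_re]
  have h1 := exp_sub_one (P * t)
  have h2 : ‖P * (t : ℂ)‖ = ‖P‖ * t := by
    rw [norm_mul, Complex.norm_real, Real.norm_of_nonneg ht0.le]
  rw [h2] at h1
  have h3 : Real.exp (‖P‖ * t) ≤ Real.exp (3 / 2 * t) := Real.exp_le_exp.2 (mul_le_mul_of_nonneg_right hP ht0.le)
  have h := abs_Lr_le t
  rw [abs_of_pos ht0] at h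
  unfold gm
  rw [abs_of_pos ht0]
  have hp0 := norm_nonneg P
  calc |Lr t| * Real.exp (-(Real.pi / 4) * t) * ‖cexp (P * t) - 1‖
      ≤ (20 * (1 + t) * Real.exp (-(Real.pi / 4) * t)) * Real.exp (-(Real.pi / 4) * t) * (‖P‖ * t * Real.exp (3 / 2 * t)) := by
        have h4 : ‖cexp (P * t) - 1‖ ≤ ‖P‖ * t * Real.exp (3 / 2 * t) :=
          h1.trans (mul_le_mul_of_nonneg_left h3 (by positivity))
        gcongr
    _ = 20 * ((1 + t) * t * (Real.exp (-(Real.pi / 4) * t) * Real.exp (-(Real.pi / 4) * t) * Real.exp (3 / 2 * t))) * ‖P‖ := by ring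
    _ = 20 * ((1 + t) * t * Real.exp (-(Real.pi / 2 - 3 / 2) * t)) * ‖P‖ := by
        rw [← Real.exp_add, ← Real.exp_add]; congr 4; ring
    _ ≤ _ := by
        have h5 : (1 + t) * t ≤ (1 + t) ^ 2 := by nlinarith
        gcongr

/-- the regular part -/
def BB (P : ℂ) : ℂ := 2 * Real.pi * (cexp (ww P / 2) + cexp (-(ww P / 2))) + A1 P

lemma BB_cont {P : ℂ} (hP : P.re < 3 / 2) : ContinuousAt BB P := by
  unfold BB
  apply ContinuousAt.add _ (A1_cont hP)
  unfold ww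
  fun_prop

lemma BB_lip : ∃ M : ℝ, 0 ≤ M ∧ ∀ P : ℂ, ‖P‖ ≤ 3 / 2 → ‖BB P - BB 0‖ ≤ M * ‖P‖ := by
  refine ⟨2 * Real.pi * (2 * (Real.exp 1 * Real.exp 1)) + M1c, add_nonneg (by positivity) M1c_nonneg, fun P hP => ?_⟩
  have h1 : ∀ s : ℂ, ‖s‖ = 1 → ∀ a : ℝ, ‖cexp (s * ((a : ℂ) - P) / 2) - cexp (s * ((a : ℂ) - 0) / 2)‖ ≤
      Real.exp |a| * (‖P‖ * Real.exp 1) := by
    intro s hs a
    have e1 : cexp (s * ((a : ℂ) - P) / 2) - cexp (s * ((a : ℂ) - 0) / 2) =
        cexp (s * (a : ℂ) / 2) * (cexp (-(s * P / 2)) - 1) := by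
      have : cexp (s * ((a : ℂ) - P) / 2) = cexp (s * (a : ℂ) / 2) * cexp (-(s * P / 2)) := by
        rw [← Complex.exp_add]; congr 1; ring
      rw [this, sub_zero]; ring
    rw [e1, norm_mul]
    have h2 : ‖cexp (s * (a : ℂ) / 2)‖ ≤ Real.exp |a| := by
      refine (Complex.norm_exp_le_exp_norm _).trans (Real.exp_le_exp.2 ?_)
      rw [norm_div, norm_mul, hs, one_mul, Complex.norm_real, Real.norm_eq_abs]
      simp only [Complex.norm_ofNat]
      linarith [abs_nonneg a]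
    have h3 := exp_sub_one (-(s * P / 2))
    have h4 : ‖-(s * P / 2)‖ = ‖P‖ / 2 := by
      rw [norm_neg, norm_div, norm_mul, hs, one_mul]; simp
    rw [h4] at h3
    have h5 : Real.exp (‖P‖ / 2) ≤ Real.exp 1 := Real.exp_le_exp.2 (by linarith)
    have h6 := norm_nonneg P
    have h7 : ‖cexp (-(s * P / 2)) - 1‖ ≤ ‖P‖ * Real.exp 1 := by
      calc _ ≤ ‖P‖ / 2 * Real.exp (‖P‖ / 2) := h3
        _ ≤ ‖P‖ * Real.exp 1 := mul_le_mul (by linarith) h5 (Real.exp_pos _).le h6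
    exact mul_le_mul h2 h7 (norm_nonneg _) (Real.exp_pos _).le
  have hpi := Real.pi_pos
  have hpa : Real.exp (abs (Real.pi / 4)) ≤ Real.exp 1 := by
    apply Real.exp_le_exp.2
    rw [abs_of_pos (by positivity)]
    linarith [Real.pi_lt_four]
  have k1 := h1 I (by simp) (Real.pi / 4)
  have k2 := h1 (-I) (by simp) (Real.pi / 4)
  have k3 := A1_lip hP
  have hP0 : 0 ≤ ‖P‖ * Real.exp 1 := by positivity
  have k4 : Real.exp (abs (Real.pi / 4)) * (‖P‖ * Real.exp 1) ≤ Real.exp 1 * (‖P‖ * Real.exp 1) :=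
    mul_le_mul_of_nonneg_right hpa hP0
  have e1 : BB P - BB 0 = 2 * Real.pi * ((cexp (I * (((Real.pi / 4 : ℝ) : ℂ) - P) / 2) - cexp (I * (((Real.pi / 4 : ℝ) : ℂ) - 0) / 2)) +
      (cexp (-I * (((Real.pi / 4 : ℝ) : ℂ) - P) / 2) - cexp (-I * (((Real.pi / 4 : ℝ) : ℂ) - 0) / 2))) + (A1 P - A1 0) := by
    have e2 : ∀ Q : ℂ, -(I * (((Real.pi / 4 : ℝ) : ℂ) - Q) / 2) = -I * (((Real.pi / 4 : ℝ) : ℂ) - Q) / 2 := by
      intro Q; ring
    unfold BB ww
    rw [e2 P, e2 0]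
    ring
  rw [e1]
  have h2pi : ‖(2 * Real.pi : ℂ)‖ = 2 * Real.pi := by
    rw [norm_mul, Complex.norm_real, Real.norm_of_nonneg hpi.le]; simp
  refine (norm_add_le _ _).trans ?_
  rw [norm_mul, h2pi]
  have k5 := norm_add_le (cexp (I * (((Real.pi / 4 : ℝ) : ℂ) - P) / 2) - cexp (I * (((Real.pi / 4 : ℝ) : ℂ) - 0) / 2))
    (cexp (-I * (((Real.pi / 4 : ℝ) : ℂ) - P) / 2) - cexp (-I * (((Real.pi / 4 : ℝ) : ℂ) - 0) / 2))
  have k6 := k5.trans (add_le_add (k1.trans k4) (k2.trans k4))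
  have k7 := mul_le_mul_of_nonneg_left k6 (by positivity : 0 ≤ 2 * Real.pi)
  calc _ ≤ 2 * Real.pi * (Real.exp 1 * (‖P‖ * Real.exp 1) + Real.exp 1 * (‖P‖ * Real.exp 1)) + M1c * ‖P‖ := add_le_add k7 k3
    _ = _ := by ring

lemma Ut_eq {P : ℂ} (h0 : 0 < P.re) (h1 : P.re < Real.pi / 2) : Ut uu P = 2 * Real.pi * TH P - BB P := by
  have h2 := two_sided h0 h1
  rw [R_eq_T (ww_mem h0 h1)] at h2
  have h3 : Ut uu P = T (ww P) - A1 P := by rw [h2]; ring
  rw [h3]
  unfold T BB TH ww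
  ring

lemma Ut_cont {T y : ℝ} (hT : 1 ≤ T) : ContinuousAt (fun y : ℝ => Ut uu (((1 / T : ℝ) : ℂ) + (y : ℂ) * I)) y := by
  have hT0 : 0 < T := by linarith
  have hT1 : 1 / T ≤ 1 := by rw [div_le_iff₀ hT0]; linarith
  have hT2 : 0 < 1 / T := by positivity
  have hre : ∀ y : ℝ, ((((1 / T : ℝ) : ℂ) + (y : ℂ) * I)).re = 1 / T := by intro y; simp
  have e : (fun y : ℝ => Ut uu (((1 / T : ℝ) : ℂ) + (y : ℂ) * I)) =
      fun y : ℝ => R (ww (((1 / T : ℝ) : ℂ) + (y : ℂ) * I)) - A1 (((1 / T : ℝ) : ℂ) + (y : ℂ) * I) := by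
    funext y
    rw [two_sided (by rw [hre]; exact hT2) (by rw [hre]; linarith [Real.pi_gt_three])]
    ring
  rw [e]
  apply ContinuousAt.sub
  · have h1 : ContinuousAt R (ww (((1 / T : ℝ) : ℂ) + (y : ℂ) * I)) :=
      (R_hasDeriv (ww_mem (by rw [hre]; exact hT2) (by rw [hre]; linarith [Real.pi_gt_three]))).2.continuousAt
    exact h1.comp (f := fun y : ℝ => ww (((1 / T : ℝ) : ℂ) + (y : ℂ) * I)) (by unfold ww; fun_prop)
  · have h1 : ContinuousAt A1 (((1 / T : ℝ) : ℂ) + (y : ℂ) * I) := A1_cont (by rw [hre]; linarith)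
    exact h1.comp (f := fun y : ℝ => (((1 / T : ℝ) : ℂ) + (y : ℂ) * I)) (by fun_prop)

/-- **the second primitive of `Λ(1/2 + i t) exp (π t / 4)`** -/
theorem two_main (hTH : ∃ C : ℝ, 0 < C ∧ ∀ T : ℝ, 10000 ≤ T →
      ‖∫ y in (-1 : ℝ)..1, cexp ((((1 / T : ℝ) : ℂ) + (y : ℂ) * I) * T) *
        ((((1 / T : ℝ) : ℂ) + (y : ℂ) * I) ^ 2)⁻¹ * TH (((1 / T : ℝ) : ℂ) + (y : ℂ) * I)‖ ≤ C * √T) (hRR : P_RR) :
    ∃ v K : ℝ, ∀ T : ℝ, 1 ≤ T → |(∫ t in (0:ℝ)..T, (T - t) * uu t) - v * T| ≤ K * √T := by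
  obtain ⟨C1, hC1, h1⟩ := hTH
  obtain ⟨C2, hC2, h2⟩ := hRR
  obtain ⟨C3, hC3, h3⟩ := t_BP
  obtain ⟨M, hM, hlip⟩ := BB_lip
  have hM1 := M1c_nonneg
  have hpi := Real.pi_gt_three
  have hpi4 := Real.pi_lt_four
  set v := -(BB 0).re with hv
  have key : ∀ T : ℝ, 10000 ≤ T → |(∫ t in (0:ℝ)..T, (T - t) * uu t) - v * T| ≤
      (2 * Real.pi * Real.exp 1 * (C2 + M1c) + 2 * Real.pi * C1 + C3 * (M + ‖BB 0‖)) * √T := by
    intro T hT
    have hT0 : 0 < T := by linarith
    have hT11 : 1 ≤ T := by linarith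
    have hT1 : 1 / T ≤ 1 := by rw [div_le_iff₀ hT0]; linarith
    have hT2 : 0 < 1 / T := by positivity
    have hT3 : 1 / T ≤ 1 / 10000 := one_div_le_one_div_of_le (by norm_num) hT
    have hs1 : 1 ≤ √T := by
      rw [show (1:ℝ) = √1 by simp]
      exact Real.sqrt_le_sqrt hT11
    have hre : ∀ y : ℝ, ((((1 / T : ℝ) : ℂ) + (y : ℂ) * I)).re = 1 / T := by intro y; simp
    set F : ℝ → ℂ := fun y => LK T y * Ut uu (((1 / T : ℝ) : ℂ) + (y : ℂ) * I) with hF
    -- size of the transform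
    have hUt : ∀ y : ℝ, ‖Ut uu (((1 / T : ℝ) : ℂ) + (y : ℂ) * I)‖ ≤ (C2 + M1c) * √T := by
      intro y
      have hp0 : 0 < ((((1 / T : ℝ) : ℂ) + (y : ℂ) * I)).re := by rw [hre]; exact hT2
      have hp1 : ((((1 / T : ℝ) : ℂ) + (y : ℂ) * I)).re < Real.pi / 2 := by rw [hre]; linarith
      have e1 := two_sided hp0 hp1
      have e2 := h2 _ (ww_mem hp0 hp1)
      rw [ww_im, hre, abs_of_pos (by linarith), sub_sub_cancel] at e2
      have e3 : (1 / T) ^ (-(1/2) : ℝ) = √T := by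
        rw [one_div, Real.inv_rpow hT0.le, ← Real.rpow_neg hT0.le, Real.sqrt_eq_rpow]; norm_num
      rw [e3] at e2
      have e4 := A1_norm (P := (((1 / T : ℝ) : ℂ) + (y : ℂ) * I)) (by rw [hre]; linarith)
      have e5 : Ut uu (((1 / T : ℝ) : ℂ) + (y : ℂ) * I) = R (ww (((1 / T : ℝ) : ℂ) + (y : ℂ) * I)) -
          A1 (((1 / T : ℝ) : ℂ) + (y : ℂ) * I) := by rw [e1]; ring
      rw [e5]
      have e6 := norm_sub_le (R (ww (((1 / T : ℝ) : ℂ) + (y : ℂ) * I))) (A1 (((1 / T : ℝ) : ℂ) + (y : ℂ) * I))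
      have e7 : M1c ≤ M1c * √T := le_mul_of_one_le_right hM1 hs1
      linarith
    have hFc : Continuous F := by
      rw [continuous_iff_continuousAt]
      intro y
      exact (LK_cont hT0).continuousAt.mul (Ut_cont hT11)
    have hFi : Integrable F := by
      refine ((LK_integrable hT0).norm.mul_const ((C2 + M1c) * √T)).mono' hFc.aestronglyMeasurable
        (Filter.Eventually.of_forall fun y => ?_)
      simp only [hF]
      rw [norm_mul]
      exact mul_le_mul_of_nonneg_left (hUt y) (norm_nonneg _)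
    have htail := tail_bound hT11 (F := F) (B := (C2 + M1c) * √T) (by positivity) hFi (fun y _ => by
      simp only [hF]
      rw [norm_mul, mul_comm]
      exact mul_le_mul_of_nonneg_right (hUt y) (norm_nonneg _))
    -- the middle part
    have hBi : IntervalIntegrable (fun y => LK T y * BB (((1 / T : ℝ) : ℂ) + (y : ℂ) * I)) volume (-1) 1 := by
      apply Continuous.intervalIntegrable
      rw [continuous_iff_continuousAt]
      intro y
      apply (LK_cont hT0).continuousAt.mul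
      have : ContinuousAt BB (((1 / T : ℝ) : ℂ) + (y : ℂ) * I) := BB_cont (by rw [hre]; linarith)
      exact this.comp (f := fun y : ℝ => (((1 / T : ℝ) : ℂ) + (y : ℂ) * I)) (by fun_prop)
    have hsplit : ∀ y : ℝ, F y = 2 * Real.pi * (LK T y * TH (((1 / T : ℝ) : ℂ) + (y : ℂ) * I)) -
        LK T y * BB (((1 / T : ℝ) : ℂ) + (y : ℂ) * I) := by
      intro y
      simp only [hF]
      rw [Ut_eq (by rw [hre]; exact hT2) (by rw [hre]; linarith)]
      ring
    have hTi : IntervalIntegrable (fun y => 2 * Real.pi * (LK T y * TH (((1 / T : ℝ) : ℂ) + (y : ℂ) * I))) volume (-1) 1 := by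
      have := (hFc.intervalIntegrable (-1) 1).add hBi
      refine this.congr ?_
      intro y _
      simp only [Pi.add_apply]
      rw [hsplit]; ring
    have hmid : (∫ y in (-1:ℝ)..1, F y) = 2 * Real.pi * (∫ y in (-1:ℝ)..1, LK T y * TH (((1 / T : ℝ) : ℂ) + (y : ℂ) * I)) -
        ∫ y in (-1:ℝ)..1, LK T y * BB (((1 / T : ℝ) : ℂ) + (y : ℂ) * I) := by
      rw [← intervalIntegral.integral_const_mul, ← intervalIntegral.integral_sub hTi hBi]
      apply intervalIntegral.integral_congr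
      intro y _
      exact hsplit y
    have g1 := h1 T hT
    have g2 := h3 BB M T hT11 hM (fun y _ => BB_cont (by rw [hre]; linarith)) (fun P _ hP => hlip P hP)
    -- inversion
    have hint : IntegrableOn (fun t => uu t * Real.exp (-(1 / T) * t)) (Ioi 0) := by
      refine ((poly_exp_integrable (1 / T) hT2).const_mul 20).integrableOn.mono' ?_ ?_
      · exact (uu_cont.mul (by fun_prop)).aestronglyMeasurable
      · refine (ae_restrict_iff' measurableSet_Ioi).2 (Filter.Eventually.of_forall fun t ht => ?_)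
        have ht0 : (0:ℝ) < t := ht
        rw [norm_mul, Real.norm_eq_abs, Real.norm_of_nonneg (Real.exp_pos _).le, abs_of_pos ht0]
        have := uu_bound ht0.le
        calc |uu t| * Real.exp (-(1 / T) * t) ≤ 20 * (1 + t) * Real.exp (-(1 / T) * t) :=
              mul_le_mul_of_nonneg_right this (Real.exp_pos _).le
          _ = 20 * ((1 + t) * Real.exp (-(1 / T) * t)) := by ring
          _ ≤ _ := by
              have h5 : 1 + t ≤ (1 + t) ^ 2 := by nlinarith
              gcongr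
    have hinv := inversion hT2 uu_cont.measurable hint T
    have e1 : ∀ ξ : ℝ, cexp (pt (1 / T) ξ * T) * (1 / (pt (1 / T) ξ) ^ 2) * Ut uu (pt (1 / T) ξ) = F (2 * Real.pi * ξ) := by
      intro ξ
      simp only [hF, LK]
      have e2 : (((1 / T : ℝ) : ℂ) + ((2 * Real.pi * ξ : ℝ) : ℂ) * I) = pt (1 / T) ξ := by unfold pt; rfl
      rw [e2, one_div ((pt (1 / T) ξ) ^ 2)]
    simp only [e1] at hinv
    rw [Measure.integral_comp_mul_left F (2 * Real.pi), abs_of_pos (by positivity), integral_complex_ofReal] at hinv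
    have e3 : (∫ t in Ioi (0:ℝ), uu t * max (T - t) 0) = ∫ t in (0:ℝ)..T, (T - t) * uu t := by
      rw [intervalIntegral.integral_of_le hT0.le]
      have h3 : ∫ t in Ioi (0:ℝ), uu t * max (T - t) 0 = ∫ t in Ioc 0 T, uu t * max (T - t) 0 := by
        apply setIntegral_eq_of_subset_of_forall_sdiff_eq_zero measurableSet_Ioi Ioc_subset_Ioi_self
        intro t ht
        have h4 : T < t := by
          by_contra hc
          exact ht.2 ⟨ht.1, not_lt.mp hc⟩
        rw [max_eq_right (by linarith), mul_zero]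
      rw [h3]
      apply setIntegral_congr_fun measurableSet_Ioc
      intro t ht
      simp only
      rw [max_eq_left (by linarith [ht.2])]
      ring
    rw [e3] at hinv
    set D2 := ∫ t in (0:ℝ)..T, (T - t) * uu t with hD2
    set X := ∫ y : ℝ, F y with hX
    have e4 : (2 * Real.pi : ℂ) * (D2 : ℂ) = X := by
      rw [hinv, Complex.real_smul]
      push_cast
      have : (Real.pi : ℂ) ≠ 0 := by exact_mod_cast Real.pi_ne_zero
      field_simp
    -- put together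
    set Y := ∫ y in (-1:ℝ)..1, LK T y * TH (((1 / T : ℝ) : ℂ) + (y : ℂ) * I) with hY
    set Z := ∫ y in (-1:ℝ)..1, LK T y * BB (((1 / T : ℝ) : ℂ) + (y : ℂ) * I) with hZ
    have g1' : ‖Y‖ ≤ C1 * √T := g1
    have g2' : ‖Z - 2 * Real.pi * T * BB 0‖ ≤ C3 * (M + ‖BB 0‖) * √T := g2
    have e5 : (2 * Real.pi : ℂ) * ((D2 : ℂ) + T * BB 0) = (X - ∫ y in (-1:ℝ)..1, F y) + 2 * Real.pi * Y - (Z - 2 * Real.pi * T * BB 0) := by
      rw [hmid, mul_add, e4]; ring
    have e6 : ‖(2 * Real.pi : ℂ) * ((D2 : ℂ) + T * BB 0)‖ ≤ 2 * Real.pi * Real.exp 1 * ((C2 + M1c) * √T) +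
        2 * Real.pi * (C1 * √T) + C3 * (M + ‖BB 0‖) * √T := by
      rw [e5]
      refine (norm_sub_le _ _).trans (add_le_add ((norm_add_le _ _).trans (add_le_add htail ?_)) g2')
      rw [norm_mul]
      have h2pi : ‖(2 * Real.pi : ℂ)‖ = 2 * Real.pi := by
        rw [norm_mul, Complex.norm_real, Real.norm_of_nonneg (by linarith)]; simp
      rw [h2pi]
      exact mul_le_mul_of_nonneg_left g1' (by positivity)
    have e7 : D2 - v * T = ((D2 : ℂ) + T * BB 0).re := by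
      rw [add_re, ofReal_re, mul_re, ofReal_re, ofReal_im, zero_mul, sub_zero, hv]; ring
    have e8 : |D2 - v * T| ≤ ‖(D2 : ℂ) + T * BB 0‖ := by rw [e7]; exact Complex.abs_re_le_norm _
    have e9 : ‖(D2 : ℂ) + T * BB 0‖ ≤ ‖(2 * Real.pi : ℂ) * ((D2 : ℂ) + T * BB 0)‖ := by
      rw [norm_mul]
      have h2pi : ‖(2 * Real.pi : ℂ)‖ = 2 * Real.pi := by
        rw [norm_mul, Complex.norm_real, Real.norm_of_nonneg (by linarith)]; simp
      rw [h2pi]
      apply le_mul_of_one_le_left (norm_nonneg _)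
      linarith
    calc |D2 - v * T| ≤ _ := e8.trans (e9.trans e6)
      _ = _ := by ring
  -- small T
  refine ⟨v, (2 * Real.pi * Real.exp 1 * (C2 + M1c) + 2 * Real.pi * C1 + C3 * (M + ‖BB 0‖)) +
    (10000 * (20 * 10001) * 10000 + |v| * 10000), fun T hT => ?_⟩
  have hT0 : 0 < T := by linarith
  have hs1 : 1 ≤ √T := by
    rw [show (1:ℝ) = √1 by simp]
    exact Real.sqrt_le_sqrt hT
  have hc0 : 0 ≤ 2 * Real.pi * Real.exp 1 * (C2 + M1c) + 2 * Real.pi * C1 + C3 * (M + ‖BB 0‖) := by positivity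
  have hc1 : 0 ≤ 10000 * (20 * 10001) * 10000 + |v| * 10000 := by positivity
  rcases le_total 10000 T with h | h
  · refine (key T h).trans ?_
    apply mul_le_mul_of_nonneg_right _ (by positivity)
    linarith
  · have b1 : ‖∫ t in (0:ℝ)..T, (T - t) * uu t‖ ≤ 10000 * (20 * 10001) * |T - 0| := by
      apply intervalIntegral.norm_integral_le_of_norm_le_const
      intro t ht
      rw [uIoc_of_le hT0.le] at ht
      rw [norm_mul, Real.norm_eq_abs, Real.norm_eq_abs, abs_of_nonneg (by linarith [ht.2])]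
      have := uu_bound ht.1.le
      have h4 : |uu t| ≤ 20 * 10001 := by linarith [ht.2]
      exact mul_le_mul (by linarith [ht.1]) h4 (abs_nonneg _) (by norm_num)
    rw [sub_zero, abs_of_pos hT0, Real.norm_eq_abs] at b1
    have b2 := abs_sub (∫ t in (0:ℝ)..T, (T - t) * uu t) (v * T)
    rw [abs_mul, abs_of_pos hT0] at b2
    have b3 : |v| * T ≤ |v| * 10000 := mul_le_mul_of_nonneg_left h (abs_nonneg _)
    have b4 : (10000 * (20 * 10001) * 10000 + |v| * 10000) ≤ (10000 * (20 * 10001) * 10000 + |v| * 10000) * √T :=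
      le_mul_of_one_le_right hc1 hs1
    have b5 : 0 ≤ (2 * Real.pi * Real.exp 1 * (C2 + M1c) + 2 * Real.pi * C1 + C3 * (M + ‖BB 0‖)) * √T := by positivity
    nlinarith

end

end Pool.Agent.Y745.HZ
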